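import Mathlib

set_option autoImplicit false

/-! Module Col: two-colourings which separate `n` from `f n`. -/

namespace Pool.Agent.T6.H76.DP

/-- the colouring for decreasing maps -/
def colD (g : ℕ → ℕ) (n : ℕ) : Fin 2 :=
  if h : g n < n then 1 - colD g (g n) else 0
termination_by n
decreasing_by exact h

theorem col_down (g : ℕ → ℕ) : ∃ c : ℕ → Fin 2, ∀ n, g n < n → c (g n) ≠ c n := by
  refine ⟨colD g, fun n hn => ?_⟩
  conv_rhs => rw [colD]
  rw [dif_pos hn]
  generalize colD g (g n) = x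
  revert x
  decide

theorem iter_strictMono {f : ℕ → ℕ} (hf : ∀ n, n < f n) (r : ℕ) : StrictMono fun n => f^[n] r := by
  apply strictMono_nat_of_lt_succ
  intro n
  rw [Function.iterate_succ_apply']
  exact hf _

theorem iter_parity {f : ℕ → ℕ} (hf : ∀ n, n < f n) {n r i j i' j' : ℕ} (h : f^[i] n = f^[j] r)
    (h' : f^[i'] n = f^[j'] r) : (i + j) % 2 = (i' + j') % 2 := by
  wlog hle : i ≤ i' generalizing i j i' j'
  · exact (this h' h (by omega)).symm
  obtain ⟨d, rfl⟩ := Nat.exists_eq_add_of_le' hle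
  rw [Function.iterate_add_apply, h, ← Function.iterate_add_apply] at h'
  have := (iter_strictMono hf r).injective h'
  omega

theorem col_up (f : ℕ → ℕ) (hf : ∀ n, n < f n) : ∃ c : ℕ → Fin 2, ∀ n, c (f n) ≠ c n := by
  classical
  let S : Setoid ℕ :=
    { r := fun y r => ∃ i j, f^[i] y = f^[j] r
      iseqv := by
        refine ⟨fun y => ⟨0, 0, rfl⟩, ?_, ?_⟩
        · rintro y r ⟨i, j, h⟩
          exact ⟨j, i, h.symm⟩
        · rintro x y z ⟨i, j, h⟩ ⟨i', j', h'⟩
          refine ⟨i' + i, j + j', ?_⟩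
          rw [Function.iterate_add_apply, h, ← Function.iterate_add_apply, Nat.add_comm i' j,
            Function.iterate_add_apply, h', ← Function.iterate_add_apply] }
  have hrep : ∀ y : ℕ, ∃ i j, f^[i] y = f^[j] (Quotient.out (Quotient.mk S y)) := by
    intro y
    obtain ⟨i, j, h⟩ : S.r (Quotient.out (Quotient.mk S y)) y := Quotient.mk_out (s := S) y
    exact ⟨j, i, h.symm⟩
  choose I J hIJ using hrep
  refine ⟨fun y => if (I y + J y) % 2 = 0 then 0 else 1, fun n => ?_⟩
  have hq : Quotient.mk S (f n) = Quotient.mk S n := by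
    apply Quotient.sound
    exact ⟨0, 1, rfl⟩
  have h1 := hIJ (f n)
  rw [hq, ← Function.iterate_succ_apply] at h1
  have h2 := iter_parity hf (hIJ n) h1
  have h3 : (I n + J n) % 2 ≠ (I (f n) + J (f n)) % 2 := by omega
  show (if (I (f n) + J (f n)) % 2 = 0 then (0 : Fin 2) else 1) ≠
    (if (I n + J n) % 2 = 0 then (0 : Fin 2) else 1)
  split_ifs with a b b
  · omega
  · decide
  · decide
  · omega

end Pool.Agent.T6.H76.DP
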