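import Mathlib

set_option autoImplicit false

/-!
# Differences and products: the leading binary digits

There is a finite colouring of the natural numbers such that for every sequence whose differences
and products satisfy `c (a m - a n) = c (a n * a m)` the terms are asymptotically powers of two.
-/

namespace Pool.Agent.T6.H76.DP

open Real Filter

/-- the distance to the nearest integer -/
noncomputable def hh (x : ℝ) : ℝ := min (Int.fract x) (1 - Int.fract x)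

theorem hh_add_int (k : ℤ) {y : ℝ} (hy : |y| < 1 / 2) : hh (k + y) = |y| := by
  unfold hh
  rw [abs_lt] at hy
  rcases le_or_gt 0 y with h | h
  · have e : Int.fract ((k : ℝ) + y) = y := by
      rw [Int.fract_intCast_add]
      exact Int.fract_eq_self.2 ⟨h, by linarith⟩
    rw [e, abs_of_nonneg h, min_eq_left]
    linarith
  · have e : Int.fract ((k : ℝ) + y) = y + 1 := by
      rw [Int.fract_intCast_add, ← Int.fract_add_one]
      exact Int.fract_eq_self.2 ⟨by linarith, by linarith⟩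
    rw [e, abs_of_neg h, min_eq_right]
    · ring
    · linarith

/-- the colour of a real number -/
noncomputable def cl (x : ℝ) : ZMod 16 × ZMod 4 :=
  ((⌊16 * Int.fract x⌋ : ℤ), (⌊-2 * logb 2 (hh x)⌋ : ℤ))

theorem cl_fst {x y : ℝ} (h : (cl x).1 = (cl y).1) : ∃ l : ℤ, |x - y - l| < 1 / 16 := by
  simp only [cl] at h
  have h1 := (ZMod.intCast_eq_intCast_iff_dvd_sub _ _ 16).1 h
  obtain ⟨s, hs⟩ := h1
  have e1 := Int.self_sub_floor x
  have e2 := Int.self_sub_floor y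
  have f1 := Int.floor_le (16 * Int.fract x)
  have f2 := Int.lt_floor_add_one (16 * Int.fract x)
  have f3 := Int.floor_le (16 * Int.fract y)
  have f4 := Int.lt_floor_add_one (16 * Int.fract y)
  have hs' : ((⌊16 * Int.fract y⌋ : ℤ) : ℝ) - (⌊16 * Int.fract x⌋ : ℤ) = 16 * s := by
    exact_mod_cast hs
  refine ⟨⌊x⌋ - ⌊y⌋ - s, ?_⟩
  push_cast
  rw [abs_lt]
  constructor <;> linarith

theorem cl_snd {x y : ℝ} (h : (cl x).2 = (cl y).2) :
    ¬ (1 < -2 * logb 2 (hh x) - -2 * logb 2 (hh y) ∧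
      -2 * logb 2 (hh x) - -2 * logb 2 (hh y) < 3) := by
  simp only [cl] at h
  have h1 := (ZMod.intCast_eq_intCast_iff_dvd_sub _ _ 4).1 h
  obtain ⟨s, hs⟩ := h1
  have f1 := Int.floor_le (-2 * logb 2 (hh x))
  have f2 := Int.lt_floor_add_one (-2 * logb 2 (hh x))
  have f3 := Int.floor_le (-2 * logb 2 (hh y))
  have f4 := Int.lt_floor_add_one (-2 * logb 2 (hh y))
  have hs' : ((⌊-2 * logb 2 (hh y)⌋ : ℤ) : ℝ) - (⌊-2 * logb 2 (hh x)⌋ : ℤ) = 4 * s := by
    exact_mod_cast hs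
  rintro ⟨g1, g2⟩
  have a1 : (4 : ℝ) * s < 0 := by linarith
  have a2 : (-4 : ℝ) < 4 * s := by linarith
  have b1 : (4 : ℤ) * s < 0 := by exact_mod_cast a1
  have b2 : (-4 : ℤ) < 4 * s := by exact_mod_cast a2
  omega

/-- the local contradiction -/
theorem local_contra {τ ε' δ xn xm d : ℝ} {i j : ℤ} (_hε : 0 < ε') (h1 : ε' ≤ τ) (h2 : τ ≤ 1 - ε')
    (hδ : 0 < δ) (hδ1 : δ ≤ 1 / 100) (hδ2 : 16 * δ ≤ ε') (hn : |xn - i - τ| < δ)
    (hm : |xm - j - τ| < δ) (hd : |d - xm| < δ) (hc : cl d = cl (xn + xm)) : False := by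
  obtain ⟨l, hl⟩ := cl_fst (congrArg Prod.fst hc)
  have hs := cl_snd (congrArg Prod.snd hc)
  rw [abs_lt] at hn hm hd hl
  set ρ : ℝ := τ + i + l with hρ
  have hρ1 : |ρ| < 1 / 16 + 2 * δ := by
    rw [abs_lt]; constructor <;> linarith
  have hρ2 : ε' ≤ |ρ| := by
    rcases le_or_gt 0 (i + l) with h | h
    · have : (0 : ℝ) ≤ i + l := by exact_mod_cast h
      rw [abs_of_nonneg (by linarith)]
      linarith
    · have : (i + l : ℝ) ≤ -1 := by exact_mod_cast (by omega : i + l ≤ -1)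
      rw [abs_of_nonpos (by linarith)]
      linarith
  have e1 : d = ((j - i - l : ℤ) : ℝ) + (ρ + (d - xm) + (xm - j - τ)) := by
    push_cast; rw [hρ]; ring
  have e2 : xn + xm = ((i + j - 2 * i - 2 * l : ℤ) : ℝ) +
      (2 * ρ + (xn - i - τ) + (xm - j - τ)) := by
    push_cast; rw [hρ]; ring
  have a1 : |ρ + (d - xm) + (xm - j - τ)| < 1 / 2 := by
    rw [abs_lt] at hρ1 ⊢
    constructor <;> linarith
  have a2 : |2 * ρ + (xn - i - τ) + (xm - j - τ)| < 1 / 2 := by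
    rw [abs_lt] at hρ1 ⊢
    constructor <;> linarith
  have k1 : hh d = |ρ + (d - xm) + (xm - j - τ)| := by
    conv_lhs => rw [e1]
    exact hh_add_int _ a1
  have k2 : hh (xn + xm) = |2 * ρ + (xn - i - τ) + (xm - j - τ)| := by
    conv_lhs => rw [e2]
    exact hh_add_int _ a2
  set R := |ρ| with hR
  have b1 : R - 2 * δ ≤ hh d ∧ hh d ≤ R + 2 * δ := by
    rw [k1]
    rcases abs_cases ρ with ⟨q1, q2⟩ | ⟨q1, q2⟩ <;>
      rcases abs_cases (ρ + (d - xm) + (xm - j - τ)) with ⟨q3, q4⟩ | ⟨q3, q4⟩ <;>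
      constructor <;> linarith
  have b2 : 2 * R - 2 * δ ≤ hh (xn + xm) ∧ hh (xn + xm) ≤ 2 * R + 2 * δ := by
    rw [k2]
    rcases abs_cases ρ with ⟨q1, q2⟩ | ⟨q1, q2⟩ <;>
      rcases abs_cases (2 * ρ + (xn - i - τ) + (xm - j - τ)) with ⟨q3, q4⟩ | ⟨q3, q4⟩ <;>
      constructor <;> linarith
  have hd0 : 0 < hh d := by linarith
  have hp0 : 0 < hh (xn + xm) := by linarith
  -- ratio
  have r1 : hh d * (3 / 2) ≤ hh (xn + xm) := by nlinarith
  have r2 : hh (xn + xm) ≤ hh d * (5 / 2) := by nlinarith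
  have l1 : logb 2 (hh d) + logb 2 (3 / 2) ≤ logb 2 (hh (xn + xm)) := by
    rw [← logb_mul hd0.ne' (by norm_num)]
    exact logb_le_logb_of_le (by norm_num) (by positivity) r1
  have l2 : logb 2 (hh (xn + xm)) ≤ logb 2 (hh d) + logb 2 (5 / 2) := by
    rw [← logb_mul hd0.ne' (by norm_num)]
    exact logb_le_logb_of_le (by norm_num) hp0 r2
  have m1 : (1 / 2 : ℝ) < logb 2 (3 / 2) := by
    rw [lt_logb_iff_rpow_lt (by norm_num) (by norm_num), ← Real.sqrt_eq_rpow,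
      Real.sqrt_lt' (by norm_num)]
    norm_num
  have m2 : logb 2 (5 / 2) < (3 / 2 : ℝ) := by
    rw [logb_lt_iff_lt_rpow (by norm_num) (by norm_num)]
    have : (2 : ℝ) ^ (3 / 2 : ℝ) = 2 * Real.sqrt 2 := by
      rw [show (3 / 2 : ℝ) = 1 + 1 / 2 by norm_num, rpow_add (by norm_num), rpow_one,
        ← Real.sqrt_eq_rpow]
    rw [this]
    have h3 : (5 / 4 : ℝ) < Real.sqrt 2 := by
      rw [Real.lt_sqrt (by norm_num)]
      norm_num
    linarith
  exact hs ⟨by linarith, by linarith⟩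

theorem near_pow {ε : ℝ} (hε : 0 < ε) : ∃ ε' : ℝ, 0 < ε' ∧ ε' < 1 / 2 ∧ ∀ y : ℕ, 0 < y →
    hh (logb 2 y) < ε' → ∃ k : ℕ, |(y : ℝ) - 2 ^ k| ≤ ε * 2 ^ k := by
  have hc : ContinuousAt (fun s : ℝ => (2 : ℝ) ^ s) 0 :=
    (Real.continuous_const_rpow (by norm_num)).continuousAt
  obtain ⟨δ, hδ, h⟩ := Metric.continuousAt_iff.1 hc ε hε
  refine ⟨min δ (1 / 4), by positivity, lt_of_le_of_lt (min_le_right _ _) (by norm_num), ?_⟩
  intro y hy hh'
  have hy1 : (1 : ℝ) ≤ y := by exact_mod_cast hy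
  have hx0 : 0 ≤ logb 2 (y : ℝ) := logb_nonneg (by norm_num) hy1
  have key : ∀ z : ℤ, 0 ≤ z → |logb 2 (y : ℝ) - z| < δ → ∃ k : ℕ, |(y : ℝ) - 2 ^ k| ≤ ε * 2 ^ k := by
    intro z hz hzd
    obtain ⟨k, rfl⟩ := Int.eq_ofNat_of_zero_le hz
    refine ⟨k, ?_⟩
    have h1 := @h (logb 2 (y : ℝ) - ((k : ℤ) : ℝ)) (by rw [dist_eq, sub_zero]; exact hzd)
    rw [dist_eq, rpow_zero] at h1
    have h2 : (2 : ℝ) ^ (logb 2 (y : ℝ) - ((k : ℤ) : ℝ)) = y / 2 ^ k := by
      rw [rpow_sub (by norm_num), rpow_logb (by norm_num) (by norm_num) (by linarith)]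
      congr 1
      rw [Int.cast_natCast, rpow_natCast]
    rw [h2] at h1
    have hk : (0 : ℝ) < 2 ^ k := by positivity
    have h3 : (y : ℝ) - 2 ^ k = 2 ^ k * (y / 2 ^ k - 1) := by field_simp
    rw [h3, abs_mul, abs_of_pos hk, mul_comm]
    exact mul_le_mul_of_nonneg_right h1.le hk.le
  unfold hh at hh'
  have e1 := Int.self_sub_floor (logb 2 (y : ℝ))
  have hf0 := Int.fract_nonneg (logb 2 (y : ℝ))
  have hf1 := Int.fract_lt_one (logb 2 (y : ℝ))
  have hfl : 0 ≤ ⌊logb 2 (y : ℝ)⌋ := Int.floor_nonneg.2 hx0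
  rcases min_lt_iff.1 hh' with h1 | h1
  · refine key ⌊logb 2 (y : ℝ)⌋ hfl ?_
    rw [e1, abs_of_nonneg hf0]
    exact lt_of_lt_of_le h1 (min_le_left _ _)
  · refine key (⌊logb 2 (y : ℝ)⌋ + 1) (by omega) ?_
    push_cast
    rw [abs_of_nonpos (by linarith)]
    have := min_le_left δ (1 / 4 : ℝ)
    linarith

theorem lead : ∃ (r : ℕ) (c : ℕ → Fin r), ∀ a : ℕ → ℕ, StrictMono a → (∀ n, 0 < a n) →
    (∀ n m, n < m → c (a m - a n) = c (a n * a m)) →
    ∀ ε : ℝ, 0 < ε → ∀ᶠ m in atTop, ∃ k : ℕ, |(a m : ℝ) - 2 ^ k| ≤ ε * 2 ^ k := by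
  refine ⟨Fintype.card (ZMod 16 × ZMod 4),
    fun y => Fintype.equivFin (ZMod 16 × ZMod 4) (cl (logb 2 (y : ℝ))), ?_⟩
  intro a ha hpos hcol ε hε
  obtain ⟨ε', hε', hε2, hnear⟩ := near_pow hε
  by_contra hcon
  rw [not_eventually] at hcon
  have hfr : ∃ᶠ m in atTop, Int.fract (logb 2 (a m : ℝ)) ∈ Set.Icc ε' (1 - ε') := by
    refine hcon.mono fun m hm => ?_
    by_contra hout
    refine hm (hnear (a m) (hpos m) ?_)
    unfold hh
    rw [Set.mem_Icc, not_and_or, not_le, not_le] at hout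
    rw [min_lt_iff]
    rcases hout with h | h
    · exact Or.inl h
    · right; linarith
  obtain ⟨τ, hτ, φ, hφ, hlim⟩ := isCompact_Icc.tendsto_subseq' hfr
  have hb : StrictMono (a ∘ φ) := ha.comp hφ
  set δ : ℝ := min (1 / 100) (ε' / 16) with hδ
  have hδ0 : 0 < δ := by positivity
  have hev : ∀ᶠ m in atTop, |Int.fract (logb 2 (a (φ m) : ℝ)) - τ| < δ := by
    have := Metric.tendsto_nhds.1 hlim δ hδ0
    simpa [dist_eq] using this
  obtain ⟨n, hn⟩ := hev.exists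
  have hat : Tendsto (fun m => ((a (φ m) : ℕ) : ℝ)) atTop atTop :=
    tendsto_natCast_atTop_atTop.comp hb.tendsto_atTop
  have hdiff : Tendsto (fun m => logb 2 ((a (φ m) : ℝ) - a (φ n)) - logb 2 (a (φ m) : ℝ))
      atTop (nhds 0) := by
    have h1 : Tendsto (fun m => 1 - (a (φ n) : ℝ) / (a (φ m) : ℝ)) atTop (nhds (1 - 0)) :=
      tendsto_const_nhds.sub (tendsto_const_nhds.div_atTop hat)
    rw [sub_zero] at h1
    have h2 : Tendsto (fun m => logb 2 (1 - (a (φ n) : ℝ) / (a (φ m) : ℝ))) atTop (nhds (logb 2 1)) :=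
      (continuousAt_logb (by norm_num)).tendsto.comp h1
    rw [logb_one] at h2
    refine h2.congr' ?_
    filter_upwards [hat.eventually_gt_atTop (a (φ n) : ℝ)] with m hm
    have hm0 : (0 : ℝ) < a (φ m) := by exact_mod_cast hpos _
    have e : (1 : ℝ) - (a (φ n) : ℝ) / (a (φ m) : ℝ) = ((a (φ m) : ℝ) - a (φ n)) / a (φ m) := by
      field_simp
    rw [e, logb_div (by linarith) hm0.ne']
  have hev2 : ∀ᶠ m in atTop, |logb 2 ((a (φ m) : ℝ) - a (φ n)) - logb 2 (a (φ m) : ℝ)| < δ := by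
    have := Metric.tendsto_nhds.1 hdiff δ hδ0
    simpa [dist_eq] using this
  obtain ⟨m, ⟨hm1, hm2⟩, hnm⟩ := ((hev.and hev2).and (eventually_gt_atTop n)).exists
  have hlt : φ n < φ m := hφ hnm
  have hcc := hcol (φ n) (φ m) hlt
  have hcc' := (Fintype.equivFin (ZMod 16 × ZMod 4)).injective hcc
  have hle : a (φ n) ≤ a (φ m) := (hb hnm).le
  have hn0 : ((a (φ n) : ℕ) : ℝ) ≠ 0 := by exact_mod_cast (hpos _).ne'
  have hm0 : ((a (φ m) : ℕ) : ℝ) ≠ 0 := by exact_mod_cast (hpos _).ne'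
  rw [Nat.cast_sub hle, Nat.cast_mul, logb_mul hn0 hm0] at hcc'
  refine local_contra (i := ⌊logb 2 (a (φ n) : ℝ)⌋) (j := ⌊logb 2 (a (φ m) : ℝ)⌋) hε' hτ.1 hτ.2 hδ0
    (min_le_left _ _) ?_ ?_ ?_ hm2 hcc'
  · have := min_le_right (1 / 100) (ε' / 16)
    linarith
  · rw [Int.self_sub_floor]; exact hn
  · rw [Int.self_sub_floor]; exact hm1

end Pool.Agent.T6.H76.DP
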