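import Pool.Agent.T6.H76.DP.Proc

set_option autoImplicit false

/-!
# Measurability and the lists
-/

namespace Pool.Agent.T6.H76.DP

open Real MeasureTheory

lemma mem_measurable (y : ℕ) (t : Tr) : MeasurableSet {u : ℝ | t ∈ Mk u y} := by
  have h1 : {u : ℝ | t ∈ Mk u y} = {u | Stat t} ∩
      (({u | 64 * log t.2.1 ≤ u * log t.1} ∩ ({u | 64 * log (ht t.2.2) ≤ u * log t.1} ∩
        {u | 64 * (log t.1 - log (gc y t)) ≤ u * log t.1})) ∩
      ⋃ k : ℕ, ({u | 12 * u * log t.1 ≤ k * log 2} ∩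
        {u | |(t.2.1 : ℝ) * y - t.1 * 2 ^ k| ≤ 2 ^ k * t.1 * exp (-(12 * u * log t.1))})) := by
    ext u
    simp only [Mk, Up, Dn, Set.mem_setOf_eq, Set.mem_inter_iff, Set.mem_iUnion]
  rw [h1]
  refine (MeasurableSet.const _).inter (((measurableSet_le (by fun_prop) (by fun_prop)).inter
    ((measurableSet_le (by fun_prop) (by fun_prop)).inter (measurableSet_le (by fun_prop) (by fun_prop)))).inter
    (MeasurableSet.iUnion fun k => (measurableSet_le (by fun_prop) (by fun_prop)).inter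
      (measurableSet_le (by fun_prop) (by fun_prop))))

lemma prop_measurable (y : ℕ) (hfin : ∀ u : ℝ, 1 ≤ u → u ≤ 2 → (Mk u y).Finite)
    (Q : Set Tr → Prop) : MeasurableSet {u : ℝ | 1 ≤ u ∧ u ≤ 2 ∧ Q (Mk u y)} := by
  have h1 : {u : ℝ | 1 ≤ u ∧ u ≤ 2 ∧ Q (Mk u y)} =
      ⋃ F : Finset Tr, ({u : ℝ | 1 ≤ u} ∩ ({u | u ≤ 2} ∩ ({u | Q (F : Set Tr)} ∩
        ⋂ t : Tr, {u | t ∈ Mk u y ↔ t ∈ F}))) := by
    ext u
    simp only [Set.mem_setOf_eq, Set.mem_iUnion, Set.mem_inter_iff, Set.mem_iInter]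
    constructor
    · rintro ⟨h1, h2, h3⟩
      refine ⟨(hfin u h1 h2).toFinset, h1, h2, by simpa using h3, fun t => by simp⟩
    · rintro ⟨F, h1, h2, h3, h4⟩
      refine ⟨h1, h2, ?_⟩
      have : Mk u y = (F : Set Tr) := by
        ext t
        rw [h4 t]
        simp
      rwa [this]
  rw [h1]
  refine MeasurableSet.iUnion fun F => (measurableSet_le (by fun_prop) (by fun_prop)).inter
    ((measurableSet_le (by fun_prop) (by fun_prop)).inter ((MeasurableSet.const _).inter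
      (MeasurableSet.iInter fun t => ?_)))
  by_cases ht : t ∈ F
  · simp only [ht, iff_true]
    exact mem_measurable y t
  · simp only [ht, iff_false]
    exact (mem_measurable y t).compl

lemma two_list (E : ℕ → Set ℝ) (hm : ∀ A, MeasurableSet (E A))
    (hsub : ∀ A, E A ⊆ Set.Icc 1 2) (hdis : ∀ A B, A ≠ B → Disjoint (E A) (E B)) :
    ∃ x : Fin 2 → ℕ, ∀ A, ENNReal.ofReal (2 / 5) ≤ volume (E A) → ∃ i, x i = A := by
  set S : Set ℕ := {A | ENNReal.ofReal (2 / 5) ≤ volume (E A)} with hS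
  have h3 : ∀ A ∈ S, ∀ B ∈ S, ∀ C ∈ S, A ≠ B → A ≠ C → B ≠ C → False := by
    intro A hA B hB C hC hAB hAC hBC
    have h1 : volume (E A ∪ E B ∪ E C) = volume (E A) + volume (E B) + volume (E C) := by
      rw [measure_union _ (hm C), measure_union (hdis A B hAB) (hm B)]
      exact Disjoint.union_left (hdis A C hAC) (hdis B C hBC)
    have h2 : volume (E A ∪ E B ∪ E C) ≤ ENNReal.ofReal 1 := by
      calc volume (E A ∪ E B ∪ E C) ≤ volume (Set.Icc (1 : ℝ) 2) :=
            measure_mono (Set.union_subset (Set.union_subset (hsub A) (hsub B)) (hsub C))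
        _ = ENNReal.ofReal 1 := by rw [Real.volume_Icc]; norm_num
    have h3 : ENNReal.ofReal (6 / 5) ≤ ENNReal.ofReal 1 := by
      refine le_trans ?_ h2
      rw [h1]
      calc ENNReal.ofReal (6 / 5) = ENNReal.ofReal (2 / 5) + ENNReal.ofReal (2 / 5) +
            ENNReal.ofReal (2 / 5) := by
            rw [← ENNReal.ofReal_add (by norm_num) (by norm_num),
              ← ENNReal.ofReal_add (by norm_num) (by norm_num)]
            norm_num
        _ ≤ _ := add_le_add (add_le_add hA hB) hC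
    rw [ENNReal.ofReal_le_ofReal_iff (by norm_num)] at h3
    norm_num at h3
  by_cases hne : S.Nonempty
  · obtain ⟨A, hA⟩ := hne
    by_cases hne2 : ∃ B ∈ S, B ≠ A
    · obtain ⟨B, hB, hBA⟩ := hne2
      refine ⟨![A, B], fun C hC => ?_⟩
      by_cases h1 : C = A
      · exact ⟨0, by simp [h1]⟩
      · by_cases h2 : C = B
        · exact ⟨1, by simp [h2]⟩
        · exact (h3 A hA B hB C hC (Ne.symm hBA) (Ne.symm h1) (Ne.symm h2)).elim
    · push Not at hne2
      exact ⟨![A, A], fun C hC => ⟨0, by simp [hne2 C hC]⟩⟩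
  · refine ⟨![0, 0], fun C hC => ?_⟩
    exact absurd ⟨C, hC⟩ hne

theorem lists_aux (hfin : ∀ (u : ℝ) (y : ℕ), 1 ≤ u → u ≤ 2 → (Mk u y).Finite)
    (hinj : ∀ (u : ℝ) (y : ℕ), 1 ≤ u → u ≤ 2 → ∀ t ∈ Mk u y, ∀ t' ∈ Mk u y, pos t = pos t' → t = t') :
    ∃ (X D : Fin 2 → ℕ → ℕ),
    (∀ y A, ENNReal.ofReal (2 / 5) ≤ volume (EX y A) → ∃ i, X i y = A) ∧
    (∀ y A, ENNReal.ofReal (2 / 5) ≤ volume (ED y A) → ∃ i, D i y = A) := by
  have hX : ∀ y, ∃ x : Fin 2 → ℕ, ∀ A, ENNReal.ofReal (2 / 5) ≤ volume (EX y A) → ∃ i, x i = A := by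
    intro y
    refine two_list (EX y) (fun A => ?_) (fun A u hu => ⟨hu.1, hu.2.1⟩) (fun A B hAB => ?_)
    · exact prop_measurable y (fun u h1 h2 => hfin u y h1 h2)
        (fun M => ∃ j, Final (2 ^ (padicValNat 2 y / 2)) M j ∧ j.1 = A)
    · rw [Set.disjoint_left]
      rintro u ⟨h1, h2, j, hj, hjA⟩ ⟨_, _, j', hj', hjB⟩
      have := Final_unique (hinj u y h1 h2) hj hj'
      rw [this] at hjA
      exact hAB (hjA.symm.trans hjB)
  have hD : ∀ y, ∃ x : Fin 2 → ℕ, ∀ A, ENNReal.ofReal (2 / 5) ≤ volume (ED y A) → ∃ i, x i = A := by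
    intro y
    refine two_list (ED y) (fun A => ?_) (fun A u hu => ⟨hu.1, hu.2.1⟩) (fun A B hAB => ?_)
    · exact prop_measurable y (fun u h1 h2 => hfin u y h1 h2)
        (fun M => ∃ j, Final 1 M j ∧ round (-j.2.2) = (A : ℤ))
    · rw [Set.disjoint_left]
      rintro u ⟨h1, h2, j, hj, hjA⟩ ⟨_, _, j', hj', hjB⟩
      have := Final_unique (hinj u y h1 h2) hj hj'
      rw [this] at hjA
      exact hAB (by exact_mod_cast hjA.symm.trans hjB)
  choose X hX using hX
  choose D hD using hD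
  exact ⟨fun i y => X y i, fun i y => D y i, hX, hD⟩

end Pool.Agent.T6.H76.DP
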