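import Pool.Agent.T6.H76.DP.Bad
import Pool.Agent.T6.H76.DP.Meas

set_option autoImplicit false

/-!
# The main dichotomy
-/

namespace Pool.Agent.T6.H76.DP

open Real MeasureTheory

lemma odd_mul (a : ℕ) : odd a * 2 ^ padicValNat 2 a = a := Nat.div_mul_cancel pow_padicValNat_dvd

lemma odd_odd_m {a : ℕ} (ha : 1 ≤ a) : Odd (odd a) := by
  rw [← Nat.not_even_iff_odd, even_iff_two_dvd]
  intro h
  have h1 : 2 ^ (padicValNat 2 a + 1) ∣ a := by
    obtain ⟨c, hc⟩ := h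
    refine ⟨c, ?_⟩
    conv_lhs => rw [← odd_mul a, hc]
    ring
  exact pow_succ_padicValNat_not_dvd (by omega) h1

lemma q_lt {u : ℝ} (hu2 : u ≤ 2) {y : ℕ} {t : Tr} (hs : Stat t) (h : Up u y t) : t.2.1 < t.1 := by
  have hL := log_pos' hs
  have hq0 : 0 < t.2.1 := hs.2.2.1.pos
  have hP0 : 0 < t.1 := by have := hs.1; omega
  have hq0' : (0 : ℝ) < t.2.1 := by exact_mod_cast hq0
  have hP0' : (0 : ℝ) < t.1 := by exact_mod_cast hP0
  have h1 := h.1
  have h2 : log (t.2.1 : ℝ) < log t.1 := by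
    have : u * log t.1 ≤ 2 * log t.1 := mul_le_mul_of_nonneg_right hu2 hL.le
    linarith
  have h3 := (Real.log_lt_log_iff (by positivity) (by positivity)).1 h2
  exact_mod_cast h3

lemma one_lt_pos {t : Tr} (hs : Stat t) (h : t.2.1 < t.1) : 1 < pos t := by
  have hq0 : 0 < t.2.1 := hs.2.2.1.pos
  have hq0' : (0 : ℚ) < t.2.1 := by exact_mod_cast hq0
  rw [pos, one_lt_div hq0']
  exact_mod_cast h

lemma Dn_large {u : ℝ} (hu : 1 ≤ u) {y : ℕ} {t : Tr} (hs : Stat t) (hq : t.2.1 < t.1)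
    (h : Dn u y t) {K : ℕ} {η : ℝ} (hη : η ≤ 1 / 2) (hy : |(y : ℝ) - 2 ^ K| ≤ η * 2 ^ K) :
    1 ≤ 4 * η * t.1 := by
  have hL := log_pos' hs
  obtain ⟨k, h1, h2⟩ := h
  refine large (k := k) hs.1 hs.2.1 hs.2.2.1 hs.2.2.2 hq hη hy (h2.trans ?_)
  refine mul_le_mul_of_nonneg_left ?_ (by positivity)
  apply Real.exp_le_exp.2
  nlinarith

/-- triples of the product above `odd a` come from triples of `b` with large `P` -/
lemma Dn_large_mu {a b : ℕ} (ha : 1 ≤ a) {u : ℝ} (hu : 1 ≤ u) {t : Tr} (hs : Stat t)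
    (hq : t.2.1 < t.1) (h : Dn u (a * b) (mu a t)) {K : ℕ} {η : ℝ} (hη : η ≤ 1 / 2)
    (hy : |(b : ℝ) - 2 ^ K| ≤ η * 2 ^ K) : 1 ≤ 4 * η * t.1 := by
  have hL := log_pos' hs
  obtain ⟨k, h1, h2⟩ := h
  have hP0 : 0 < t.1 := by have := hs.1; omega
  have hP0' : (0 : ℝ) < t.1 := by exact_mod_cast hP0
  set V := padicValNat 2 a with hV
  set A := odd a with hA
  set g := Nat.gcd A t.2.1 with hg
  have hAV : A * 2 ^ V = a := odd_mul a
  have hA0 : 0 < A := by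
    rcases Nat.eq_zero_or_pos A with h0 | h0
    · rw [h0] at hAV; omega
    · exact h0
  have hg0 : 0 < g := Nat.gcd_pos_of_pos_left _ hA0
  obtain ⟨A', hA'⟩ : g ∣ A := Nat.gcd_dvd_left _ _
  obtain ⟨q', hq'⟩ : g ∣ t.2.1 := Nat.gcd_dvd_right _ _
  have hA'0 : 0 < A' := by
    rcases Nat.eq_zero_or_pos A' with h0 | h0
    · rw [h0] at hA'; omega
    · exact h0
  have hm1 : (mu a t).1 = A' * t.1 := by
    show A * t.1 / g = A' * t.1
    rw [hA', mul_assoc, Nat.mul_div_cancel_left _ hg0]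
  have hm2 : (mu a t).2.1 = q' := by
    show t.2.1 / g = q'
    rw [hq', Nat.mul_div_cancel_left _ hg0]
  rw [hm1, hm2] at h2
  rw [hm1] at h1
  have hA'r : (0 : ℝ) < A' := by exact_mod_cast hA'0
  have hgr : (0 : ℝ) < g := by exact_mod_cast hg0
  have e1 : (a : ℝ) = g * A' * 2 ^ V := by
    rw [← hAV, hA']; push_cast; ring
  have e2 : (t.2.1 : ℝ) = g * q' := by rw [hq']; push_cast; ring
  have e3 : (q' : ℝ) * ((a * b : ℕ) : ℝ) - ((A' * t.1 : ℕ) : ℝ) * 2 ^ k =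
      A' * ((t.2.1 : ℝ) * (2 ^ V * b) - t.1 * 2 ^ k) := by
    push_cast
    rw [e1, e2]; ring
  rw [e3, abs_mul, abs_of_pos hA'r] at h2
  have hlog : log (t.1 : ℝ) ≤ log ((A' * t.1 : ℕ) : ℝ) := by
    apply Real.log_le_log hP0'
    push_cast
    have : (1 : ℝ) ≤ A' := by exact_mod_cast hA'0
    nlinarith
  have h3 : |(t.2.1 : ℝ) * (2 ^ V * b) - t.1 * 2 ^ k| ≤ 2 ^ k * t.1 * exp (-(6 * log t.1)) := by
    have h4 : A' * |(t.2.1 : ℝ) * (2 ^ V * b) - t.1 * 2 ^ k| ≤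
        A' * (2 ^ k * t.1 * exp (-(6 * log t.1))) := by
      refine h2.trans ?_
      push_cast
      have h5 : exp (-(12 * u * log ((A' : ℝ) * t.1))) ≤ exp (-(6 * log t.1)) := by
        apply Real.exp_le_exp.2
        push_cast at hlog
        nlinarith
      calc 2 ^ k * ((A' : ℝ) * t.1) * exp (-(12 * u * log ((A' : ℝ) * t.1))) ≤
            2 ^ k * ((A' : ℝ) * t.1) * exp (-(6 * log t.1)) :=
            mul_le_mul_of_nonneg_left h5 (by positivity)
        _ = _ := by ring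
    exact le_of_mul_le_mul_left h4 hA'r
  refine large (k := k) (K := K + V) (y := 2 ^ V * b) hs.1 hs.2.1 hs.2.2.1 hs.2.2.2 hq hη ?_ h3
  have : (2 ^ V * (b : ℝ) - 2 ^ (K + V)) = 2 ^ V * (b - 2 ^ K) := by rw [pow_add]; ring
  rw [this, abs_mul, abs_of_pos (by positivity : (0 : ℝ) < 2 ^ V)]
  calc 2 ^ V * |(b : ℝ) - 2 ^ K| ≤ 2 ^ V * (η * 2 ^ K) := by gcongr
    _ = η * 2 ^ (K + V) := by rw [pow_add]; ring

lemma Mk_finite {u : ℝ} (y : ℕ) (h1 : 1 ≤ u) (h2 : u ≤ 2) : (Mk u y).Finite :=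
  (Rel_finite y).subset (Mk_subset_Rel h1 h2 y)

lemma Mk_inj {u : ℝ} (y : ℕ) (h1 : 1 ≤ u) (h2 : u ≤ 2) :
    ∀ t ∈ Mk u y, ∀ t' ∈ Mk u y, pos t = pos t' → t = t' :=
  fun t ht t' ht' h => Rel_pos_inj (Mk_subset_Rel h1 h2 y ht) (Mk_subset_Rel h1 h2 y ht') h

/-- the mark `(odd a, 1, 0)` of the product -/
lemma base_mark {a b K : ℕ} (ha : 3 ≤ odd a) {u : ℝ} (h1 : 1 ≤ u) (h2 : u ≤ 2) {η : ℝ}
    (hη : η ≤ exp (-(24 * log (odd a)))) (hK : 24 * log (odd a) ≤ K * log 2)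
    (hy : |(b : ℝ) - 2 ^ K| ≤ η * 2 ^ K) : ((odd a, 1, 0) : Tr) ∈ Mk u (a * b) := by
  have ha1 : 1 ≤ a := by
    rcases Nat.eq_zero_or_pos a with h0 | h0
    · rw [h0] at ha; simp [odd] at ha
    · exact h0
  have hL : 0 < log (odd a : ℝ) := by
    apply Real.log_pos
    have : (3 : ℝ) ≤ odd a := by exact_mod_cast ha
    linarith
  have hs : Stat ((odd a, 1, 0) : Tr) := ⟨ha, odd_odd_m ha1, odd_one, Nat.coprime_one_right _⟩
  refine ⟨hs, ⟨?_, ?_, ?_⟩, ?_⟩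
  · simp only [Nat.cast_one, Real.log_one, mul_zero]
    positivity
  · have : ht ((odd a, 1, 0) : Tr).2.2 = 1 := by simp [ht]
    rw [this]
    simp only [Nat.cast_one, Real.log_one, mul_zero]
    positivity
  · have : gc (a * b) ((odd a, 1, 0) : Tr) = odd a := by
      simp only [gc, sub_zero, Rat.num_natCast, Int.natAbs_natCast]
      apply Nat.gcd_eq_left
      refine Dvd.dvd.mul_right ?_ b
      exact ⟨2 ^ padicValNat 2 a, (odd_mul a).symm⟩
    rw [this]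
    simp only [sub_self, mul_zero]
    positivity
  · refine ⟨K + padicValNat 2 a, ?_, ?_⟩
    · have h3 : 12 * u * log (odd a) ≤ 24 * log (odd a) := by nlinarith
      have h4 : (K : ℝ) * log 2 ≤ ((K + padicValNat 2 a : ℕ) : ℝ) * log 2 := by
        push_cast
        have := Real.log_pos (by norm_num : (1 : ℝ) < 2)
        have h5 : (0 : ℝ) ≤ padicValNat 2 a := by positivity
        nlinarith
      exact (h3.trans hK).trans h4
    · have e1 : (a : ℝ) = odd a * 2 ^ padicValNat 2 a := by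
        exact_mod_cast (odd_mul a).symm
      have e2 : (((1 : ℕ) : ℝ) * ((a * b : ℕ) : ℝ) - (odd a : ℝ) * 2 ^ (K + padicValNat 2 a)) =
          a * (b - 2 ^ K) := by
        push_cast
        rw [e1, pow_add]; ring
      show |((1 : ℕ) : ℝ) * ((a * b : ℕ) : ℝ) - (odd a : ℝ) * 2 ^ (K + padicValNat 2 a)| ≤ _
      rw [e2, abs_mul, abs_of_nonneg (by positivity : (0 : ℝ) ≤ a)]
      have h5 : exp (-(24 * log (odd a : ℝ))) ≤ exp (-(12 * u * log (odd a : ℝ))) := by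
        apply Real.exp_le_exp.2
        nlinarith
      calc (a : ℝ) * |(b : ℝ) - 2 ^ K| ≤ a * (η * 2 ^ K) := by gcongr
        _ ≤ a * (exp (-(12 * u * log (odd a : ℝ))) * 2 ^ K) := by
            have := hη.trans h5
            gcongr
        _ = 2 ^ (K + padicValNat 2 a) * (odd a : ℝ) * exp (-(12 * u * log (odd a : ℝ))) := by
            rw [e1, pow_add]; ring

lemma round_aux {w : ℚ} {a : ℕ} (hw : |w| < 1 / 2) : round (-(w + ((-(a : ℤ) : ℤ) : ℚ))) = (a : ℤ) := by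
  have h1 : -(w + ((-(a : ℤ) : ℤ) : ℚ)) = (-w) + ((a : ℤ) : ℚ) := by push_cast; ring
  rw [h1, round_add_intCast]
  have h2 : round (-w) = 0 := by
    rw [round_eq_zero_iff]
    rw [abs_lt] at hw
    constructor <;> linarith
  rw [h2]; simp

/-- for a parameter which is good, one of the two rules is correct -/
theorem good_dichotomy {a b K : ℕ} (ha : 3 ≤ odd a) (hab : a ≤ b)
    (hV : padicValNat 2 b = padicValNat 2 a) (hb0 : 0 < b) {δ : ℝ} (hδ : 2 * δ ≤ 1 / 2)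
    (hy : |(b : ℝ) - 2 ^ K| ≤ δ * 2 ^ K) (hy' : |((b - a : ℕ) : ℝ) - 2 ^ K| ≤ (2 * δ) * 2 ^ K)
    (hδ0 : 0 < δ)
    {s : ℝ} (hs : exp s ≤ 1 / (8 * δ)) {u : ℝ} (h1 : 1 ≤ u) (h2 : u ≤ 2)
    (hη : δ ≤ exp (-(24 * log (odd a)))) (hK : 24 * log (odd a) ≤ K * log 2)
    (hgood : u ∉ {u | ∃ t : Tr, Stat t ∧ s ≤ log t.1 ∧ u ∈ BadT a b t}) :
    u ∈ EX (a * b) (odd a) ∨ u ∈ ED (b - a) a := by
  have ha1 : 1 ≤ a := by
    rcases Nat.eq_zero_or_pos a with h0 | h0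
    · rw [h0] at ha; simp [odd] at ha
    · exact h0
  have hbig : ∀ (t : Tr) (η : ℝ), Stat t → η ≤ 2 * δ → 1 ≤ 4 * η * t.1 → s ≤ log t.1 := by
    intro t η ht h3 h4
    have hP0 : 0 < t.1 := by have := ht.1; omega
    have hP0' : (0 : ℝ) < t.1 := by exact_mod_cast hP0
    rw [Real.le_log_iff_exp_le hP0']
    refine hs.trans ?_
    rw [div_le_iff₀ (by positivity)]
    nlinarith
  have hg : ∀ t : Tr, Stat t → s ≤ log t.1 → ((t ∈ Mk u b ↔ mu a t ∈ Mk u (a * b)) ∧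
      (t ∈ Mk u b ↔ sh (-(a : ℤ)) t ∈ Mk u (b - a))) := by
    intro t ht h3
    by_contra hcon
    exact hgood ⟨t, ht, h3, h1, h2, hcon⟩
  -- marks of b
  have hMb : ∀ t ∈ Mk u b, s ≤ log t.1 ∧ 1 < pos t := by
    intro t ht
    have hq := q_lt h2 ht.1 ht.2.1
    exact ⟨hbig t δ ht.1 (by linarith) (Dn_large h1 ht.1 hq ht.2.2 (by linarith) hy),
      one_lt_pos ht.1 hq⟩
  -- marks of d
  have hMd : Mk u (b - a) = sh (-(a : ℤ)) '' Mk u b := by
    ext t
    constructor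
    · intro ht
      have hq := q_lt h2 ht.1 ht.2.1
      have hsz : s ≤ log t.1 := hbig t (2 * δ) ht.1 le_rfl (Dn_large h1 ht.1 hq ht.2.2 (by linarith) hy')
      have e1 : sh (-(a : ℤ)) (sh (a : ℤ) t) = t := by simp [sh]
      refine ⟨sh (a : ℤ) t, ?_, e1⟩
      have := (hg (sh (a : ℤ) t) ht.1 hsz).2
      rw [e1] at this
      exact this.2 ht
    · rintro ⟨t', ht', rfl⟩
      exact ((hg t' ht'.1 (hMb t' ht').1).2).1 ht'
  -- marks of x
  have hX1 : ∀ t ∈ Mk u b, mu a t ∈ Mk u (a * b) := fun t ht =>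
    ((hg t ht.1 (hMb t ht).1).1).1 ht
  have hX2 : ∀ t ∈ Mk u (a * b), (odd a : ℚ) < pos t → ∃ t' ∈ Mk u b, mu a t' = t := by
    intro t ht hp
    obtain ⟨t', hs', rfl⟩ := pull ha1 ht.1 hp
    refine ⟨t', ?_, rfl⟩
    have hpm := pos_mu ha1 hs'
    rw [hpm] at hp
    have hodd : (0 : ℚ) < odd a := by
      have : 0 < odd a := by omega
      exact_mod_cast this
    have hp' : 1 < pos t' := by
      by_contra hcon
      rw [not_lt] at hcon
      nlinarith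
    have hq0 : 0 < t'.2.1 := hs'.2.2.1.pos
    have hq0' : (0 : ℚ) < t'.2.1 := by exact_mod_cast hq0
    have hq : t'.2.1 < t'.1 := by
      rw [pos, one_lt_div hq0'] at hp'
      exact_mod_cast hp'
    have hsz : s ≤ log t'.1 := hbig t' δ hs' (by linarith)
      (Dn_large_mu ha1 h1 hs' hq ht.2.2 (by linarith) hy)
    exact ((hg t' hs' hsz).1).2 ht
  have hX3 : ((odd a, 1, 0) : Tr) ∈ Mk u (a * b) := base_mark ha h1 h2 hη hK hy
  have hX4 : ∀ t ∈ Mk u (a * b), |t.2.2| < pos t / 2 := fun t ht => Rel_small (Mk_subset_Rel h1 h2 _ ht)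
  have hval : padicValNat 2 (a * b) / 2 = padicValNat 2 a := by
    rw [padicValNat.mul (by omega) (by omega), hV]
    omega
  have hEX : (Mk u b = ∅ ∨ ∃ j, Final 1 (Mk u b) j ∧ 1 / 2 ≤ |j.2.2|) → u ∈ EX (a * b) (odd a) := by
    intro h
    refine ⟨h1, h2, (odd a, 1, 0), ?_, rfl⟩
    rw [hval]
    exact Final_mu_aux ha1 (fun t ht => pos_mu ha1 ht.1) (fun t ht => (hMb t ht).2) hX1 hX2 hX3 hX4 h
  rcases Set.eq_empty_or_nonempty (Mk u b) with h0 | hne
  · exact Or.inl (hEX (Or.inl h0))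
  · obtain ⟨j, hj⟩ := Final_exists (s := 1) (Mk_finite b h1 h2) hne
    rcases le_or_gt (1 / 2) |j.2.2| with hw | hw
    · exact Or.inl (hEX (Or.inr ⟨j, hj, hw⟩))
    · right
      refine ⟨h1, h2, sh (-(a : ℤ)) j, Final_sh hMd hj, ?_⟩
      exact round_aux hw

/-- the main dichotomy -/
theorem main {a : ℕ} (ha : 3 ≤ odd a) : ∃ δ : ℝ, 0 < δ ∧ ∃ B : ℕ, ∀ b K : ℕ, B ≤ b →
    padicValNat 2 b = padicValNat 2 a → |(b : ℝ) - 2 ^ K| ≤ δ * 2 ^ K →
    ENNReal.ofReal (2 / 5) ≤ volume (EX (a * b) (odd a)) ∨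
      ENNReal.ofReal (2 / 5) ≤ volume (ED (b - a) a) := by
  have ha1 : 1 ≤ a := by
    rcases Nat.eq_zero_or_pos a with h0 | h0
    · rw [h0] at ha; simp [odd] at ha
    · exact h0
  have ha' : (1 : ℝ) ≤ a := by exact_mod_cast ha1
  have hl2 : 0 < log (2 * (a : ℝ)) := Real.log_pos (by linarith)
  set s : ℝ := 32000 * log (2 * a) with hs
  have hs0 : 0 < s := by positivity
  have haexp : (a : ℝ) ≤ exp s := by
    have h1 : (a : ℝ) ≤ 2 * a := by linarith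
    have h2 : (2 * a : ℝ) = exp (log (2 * a)) := (Real.exp_log (by positivity)).symm
    rw [h2] at h1
    refine h1.trans (Real.exp_le_exp.2 ?_)
    rw [hs]; linarith
  set δ : ℝ := min (1 / 4) (min (1 / (8 * exp s)) (exp (-(24 * log (odd a))))) with hδ
  have hδ0 : 0 < δ := by rw [hδ]; positivity
  have hδ1 : δ ≤ 1 / 4 := min_le_left _ _
  have hδ2 : δ ≤ 1 / (8 * exp s) := (min_le_right _ _).trans (min_le_left _ _)
  have hδ3 : δ ≤ exp (-(24 * log (odd a))) := (min_le_right _ _).trans (min_le_right _ _)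
  obtain ⟨B1, hB1⟩ := exists_nat_ge (2 * a / δ)
  obtain ⟨B2, hB2⟩ := exists_nat_ge (2 * exp (24 * log (odd a)))
  refine ⟨δ, hδ0, max a (max B1 B2), fun b K hb hV hy => ?_⟩
  have hab : a ≤ b := (le_max_left _ _).trans hb
  have hb1 : B1 ≤ b := ((le_max_left _ _).trans (le_max_right _ _)).trans hb
  have hb2 : B2 ≤ b := ((le_max_right _ _).trans (le_max_right _ _)).trans hb
  have hb1' : (B1 : ℝ) ≤ b := by exact_mod_cast hb1
  have hb2' : (B2 : ℝ) ≤ b := by exact_mod_cast hb2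
  have hK0 : (0 : ℝ) < 2 ^ K := by positivity
  have hbK : (b : ℝ) ≤ 2 * 2 ^ K := by
    have := (abs_le.1 hy).2
    nlinarith
  have hK : 24 * log (odd a) ≤ K * log 2 := by
    have h1 : exp (24 * log (odd a)) ≤ 2 ^ K := by linarith
    have h2 := Real.log_le_log (Real.exp_pos _) h1
    rwa [Real.log_exp, Real.log_pow] at h2
  have hy' : |((b - a : ℕ) : ℝ) - 2 ^ K| ≤ (2 * δ) * 2 ^ K := by
    push_cast [hab]
    have h1 : (a : ℝ) ≤ δ * 2 ^ K := by
      have h3 := hB1.trans hb1'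
      rw [div_le_iff₀ hδ0] at h3
      nlinarith
    have h2 := abs_le.1 hy
    rw [abs_le]
    constructor <;> linarith
  have hexp : exp s ≤ 1 / (8 * δ) := by
    rw [le_div_iff₀ (by positivity)] at hδ2 ⊢
    linarith
  set Bad : Set ℝ := {u | ∃ t : Tr, Stat t ∧ s ≤ log t.1 ∧ u ∈ BadT a b t} with hBad
  have hBadvol : volume Bad ≤ ENNReal.ofReal (1 / 10) := by
    refine (Bad_total ha1 hab hs0 (by rw [hs]; linarith) haexp).trans ?_
    apply ENNReal.ofReal_le_ofReal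
    rw [hs, div_le_iff₀ (by positivity)]
    linarith
  have hcover : Set.Icc (1 : ℝ) 2 ⊆ EX (a * b) (odd a) ∪ ED (b - a) a ∪ Bad := by
    intro u hu
    by_cases hb' : u ∈ Bad
    · exact Or.inr hb'
    · left
      exact good_dichotomy ha hab hV (by omega) (by linarith) hy hy' hδ0 hexp hu.1 hu.2 hδ3 hK hb'
  have hvol : ENNReal.ofReal 1 ≤ volume (EX (a * b) (odd a)) + volume (ED (b - a) a) + ENNReal.ofReal (1 / 10) := by
    have h1 : volume (Set.Icc (1 : ℝ) 2) = ENNReal.ofReal 1 := by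
      rw [Real.volume_Icc]; norm_num
    rw [← h1]
    refine (measure_mono hcover).trans ((measure_union_le _ _).trans (add_le_add (measure_union_le _ _) hBadvol))
  by_contra hcon
  push Not at hcon
  have h3 : volume (EX (a * b) (odd a)) + volume (ED (b - a) a) + ENNReal.ofReal (1 / 10) ≤
      ENNReal.ofReal (2 / 5) + ENNReal.ofReal (2 / 5) + ENNReal.ofReal (1 / 10) :=
    add_le_add (add_le_add hcon.1.le hcon.2.le) le_rfl
  have h4 := hvol.trans h3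
  rw [← ENNReal.ofReal_add (by norm_num) (by norm_num), ← ENNReal.ofReal_add (by norm_num) (by norm_num),
    ENNReal.ofReal_le_ofReal_iff (by norm_num)] at h4
  norm_num at h4

theorem lists : ∃ (X D : Fin 2 → ℕ → ℕ),
    (∀ y A, ENNReal.ofReal (2 / 5) ≤ volume (EX y A) → ∃ i, X i y = A) ∧
    (∀ y A, ENNReal.ofReal (2 / 5) ≤ volume (ED y A) → ∃ i, D i y = A) :=
  lists_aux (fun _ y h1 h2 => Mk_finite y h1 h2) (fun _ y h1 h2 => Mk_inj y h1 h2)

end Pool.Agent.T6.H76.DP
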