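import Pool.Agent.T6.H76.DP.Defs

set_option autoImplicit false

/-!
# Marks and multiplication by an integer (module Mu)
-/

namespace Pool.Agent.T6.H76.DP

open Real Filter

theorem odd_mul_pow (a : ℕ) : odd a * 2 ^ padicValNat 2 a = a := by
  unfold odd
  exact Nat.div_mul_cancel pow_padicValNat_dvd

theorem odd_odd {a : ℕ} (ha : 1 ≤ a) : Odd (odd a) := by
  rw [← Nat.not_even_iff_odd, even_iff_two_dvd]
  intro h
  have h2 : 2 ^ (padicValNat 2 a + 1) ∣ a := by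
    conv_rhs => rw [← odd_mul_pow a]
    rw [pow_succ, mul_comm]
    exact Nat.mul_dvd_mul h dvd_rfl
  exact (pow_succ_padicValNat_not_dvd (p := 2) (by omega : a ≠ 0)) h2

theorem odd_pos' {a : ℕ} (ha : 1 ≤ a) : 0 < odd a := (odd_odd ha).pos

theorem odd_le {a : ℕ} (_ha : 1 ≤ a) : odd a ≤ a := Nat.div_le_self _ _

theorem odd_dvd (a : ℕ) : odd a ∣ a := ⟨2 ^ padicValNat 2 a, (odd_mul_pow a).symm⟩

theorem pow_le_self {a : ℕ} (ha : 1 ≤ a) : 2 ^ padicValNat 2 a ≤ a :=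
  Nat.le_of_dvd (by omega) pow_padicValNat_dvd

/-- the structure of `mu a t` -/
theorem mu_spec {a : ℕ} (ha : 1 ≤ a) {t : Tr} (hs : Stat t) :
    ∃ g A q : ℕ, 0 < g ∧ 0 < A ∧ 0 < q ∧ odd a = g * A ∧ t.2.1 = g * q ∧ Nat.Coprime A q ∧
      mu a t = (A * t.1, q, (a : ℚ) * t.2.2) := by
  obtain ⟨h3, hPo, hqo, hc⟩ := hs
  have hA := odd_pos' ha
  have hq : 0 < t.2.1 := hqo.pos
  have hg : 0 < Nat.gcd (odd a) t.2.1 := Nat.gcd_pos_of_pos_left _ hA
  refine ⟨Nat.gcd (odd a) t.2.1, odd a / Nat.gcd (odd a) t.2.1, t.2.1 / Nat.gcd (odd a) t.2.1,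
    hg, ?_, ?_, ?_, ?_, ?_, ?_⟩
  · exact Nat.div_pos (Nat.le_of_dvd hA (Nat.gcd_dvd_left _ _)) hg
  · exact Nat.div_pos (Nat.le_of_dvd hq (Nat.gcd_dvd_right _ _)) hg
  · exact (Nat.mul_div_cancel' (Nat.gcd_dvd_left _ _)).symm
  · exact (Nat.mul_div_cancel' (Nat.gcd_dvd_right _ _)).symm
  · exact Nat.coprime_div_gcd_div_gcd hg
  · unfold mu
    rw [Nat.mul_comm (odd a) t.1, Nat.mul_div_assoc _ (Nat.gcd_dvd_left _ _), Nat.mul_comm]

theorem Stat_mu {a : ℕ} (ha : 1 ≤ a) {t : Tr} (hs : Stat t) : Stat (mu a t) := by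
  obtain ⟨g, A, q, hg, hA, hq, h1, h2, h3, h4⟩ := mu_spec ha hs
  obtain ⟨hP3, hPo, hqo, hc⟩ := hs
  have hoA : Odd A := (Nat.odd_mul.mp (h1 ▸ odd_odd ha)).2
  have hoq : Odd q := (Nat.odd_mul.mp (h2 ▸ hqo)).2
  rw [h4]
  refine ⟨?_, ?_, ?_, ?_⟩
  · show 3 ≤ A * t.1
    nlinarith
  · exact hoA.mul hPo
  · exact hoq
  · show Nat.Coprime (A * t.1) q
    exact Nat.Coprime.mul_left h3 (Nat.Coprime.coprime_dvd_right ⟨g, by rw [h2]; ring⟩ hc)

theorem pos_mu {a : ℕ} (ha : 1 ≤ a) {t : Tr} (hs : Stat t) : pos (mu a t) = odd a * pos t := by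
  obtain ⟨g, A, q, hg, hA, hq, h1, h2, h3, h4⟩ := mu_spec ha hs
  unfold pos
  rw [h4, h1, h2]
  have hg' : (g : ℚ) ≠ 0 := by positivity
  have hq' : (q : ℚ) ≠ 0 := by positivity
  push_cast
  field_simp

theorem pull {a : ℕ} (ha : 1 ≤ a) {t : Tr} (hs : Stat t) (hp : (odd a : ℚ) < pos t) :
    ∃ t' : Tr, Stat t' ∧ mu a t' = t := by
  obtain ⟨P, q, ε⟩ := t
  obtain ⟨hP3, hPo, hqo, hc⟩ := hs
  simp only at hP3 hPo hqo hc
  have hA := odd_pos' ha
  have hAo := odd_odd ha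
  set A := odd a with hAdef
  have hP : 0 < P := by omega
  have hq : 0 < q := hqo.pos
  have hg : 0 < Nat.gcd P A := Nat.gcd_pos_of_pos_left _ hP
  obtain ⟨P2, hP2⟩ := Nat.gcd_dvd_left P A
  obtain ⟨A2, hA2⟩ := Nat.gcd_dvd_right P A
  have hcop : Nat.Coprime P2 A2 := by
    have := Nat.coprime_div_gcd_div_gcd (m := P) (n := A) hg
    have e1 : P / Nat.gcd P A = P2 := by
      conv_lhs => rw [hP2]
      rw [← hP2]
      exact Nat.div_eq_of_eq_mul_right hg hP2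
    have e2 : A / Nat.gcd P A = A2 := Nat.div_eq_of_eq_mul_right hg hA2
    rwa [e1, e2] at this
  set g := Nat.gcd P A with hgdef
  have hA2pos : 0 < A2 := by
    rcases Nat.eq_zero_or_pos A2 with h | h
    · rw [h] at hA2; omega
    · exact h
  have hP2pos : 0 < P2 := by
    rcases Nat.eq_zero_or_pos P2 with h | h
    · rw [h] at hP2; omega
    · exact h
  have hP2o : Odd P2 := (Nat.odd_mul.mp (hP2 ▸ hPo)).2
  have hA2o : Odd A2 := (Nat.odd_mul.mp (hA2 ▸ hAo)).2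
  have hgA : g ≤ A := Nat.le_of_dvd hA (Nat.gcd_dvd_right _ _)
  have hPA : A < P := by
    have h1 : (A : ℚ) < (P : ℚ) / (q : ℚ) := hp
    have h2 : (P : ℚ) / (q : ℚ) ≤ P := by
      apply div_le_self (by positivity)
      exact_mod_cast hq
    exact_mod_cast lt_of_lt_of_le h1 h2
  have hP2ne : P2 ≠ 1 := by
    intro h
    rw [h, mul_one] at hP2
    omega
  have hP23 : 3 ≤ P2 := by
    obtain ⟨m, hm⟩ := hP2o
    omega
  have hstat : Stat (P2, q * A2, ε / a) := by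
    refine ⟨hP23, hP2o, hqo.mul hA2o, ?_⟩
    show Nat.Coprime P2 (q * A2)
    exact Nat.Coprime.mul_right
      (Nat.Coprime.coprime_dvd_left ⟨g, by rw [mul_comm P2 g]; exact hP2⟩ hc) hcop
  refine ⟨(P2, q * A2, ε / a), hstat, ?_⟩
  have hgq : Nat.Coprime g q := Nat.Coprime.coprime_dvd_left (Nat.gcd_dvd_left P A) hc
  have hgcd : Nat.gcd A (q * A2) = A2 := by
    conv_lhs => rw [hA2]
    rw [Nat.gcd_mul_right, hgq.gcd_eq_one, one_mul]
  unfold mu
  simp only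
  rw [← hAdef, hgcd]
  have ha0 : (a : ℚ) ≠ 0 := by positivity
  refine Prod.ext ?_ (Prod.ext ?_ ?_)
  · show A * P2 / A2 = P
    apply Nat.div_eq_of_eq_mul_right hA2pos
    calc A * P2 = g * A2 * P2 := by rw [← hA2]
      _ = A2 * (g * P2) := by ring
      _ = A2 * P := by rw [← hP2]
  · show q * A2 / A2 = q
    exact Nat.mul_div_cancel _ hA2pos
  · show (a : ℚ) * (ε / a) = ε
    field_simp

theorem num_dvd_num_mul (a : ℕ) (x : ℚ) : x.num ∣ ((a : ℚ) * x).num := by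
  have h : ((a : ℚ) * x).num * x.den = (a : ℤ) * x.num * ((a : ℚ) * x).den := by
    have e1 : (((a : ℚ) * x).num : ℚ) = ((a : ℚ) * x) * ((a : ℚ) * x).den :=
      (Rat.mul_den_eq_num _).symm
    have e2 : (x.num : ℚ) = x * x.den := (Rat.mul_den_eq_num _).symm
    have : ((((a : ℚ) * x).num * x.den : ℤ) : ℚ) =
        (((a : ℤ) * x.num * ((a : ℚ) * x).den : ℤ) : ℚ) := by
      push_cast
      rw [e1, e2]
      ring
    exact_mod_cast this
  have hd : x.num ∣ ((a : ℚ) * x).num * x.den := by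
    rw [h]
    exact ⟨(a : ℤ) * ((a : ℚ) * x).den, by ring⟩
  have hcop : IsCoprime x.num (x.den : ℤ) := by
    rw [Int.isCoprime_iff_gcd_eq_one]
    exact x.reduced
  exact hcop.dvd_of_dvd_mul_right hd

theorem num_mul_dvd (a : ℕ) (x : ℚ) : ((a : ℚ) * x).num ∣ (a : ℤ) * x.num := by
  have h : (a : ℚ) * x = (((a : ℤ) * x.num : ℤ) : ℚ) / ((x.den : ℤ) : ℚ) := by
    push_cast
    rw [mul_div_assoc, Rat.num_div_den]
  rw [h, ← Rat.divInt_eq_div]
  exact Rat.num_dvd _ (by exact_mod_cast x.den_ne_zero)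

theorem den_mul_dvd (a : ℕ) (x : ℚ) : ((a : ℚ) * x).den ∣ x.den := by
  have h := Rat.mul_den_dvd (a : ℚ) x
  simpa using h

theorem den_dvd_mul {a : ℕ} (ha : 1 ≤ a) (x : ℚ) : x.den ∣ ((a : ℚ) * x).den * a := by
  have ha0 : (a : ℚ) ≠ 0 := by positivity
  have h : x = (((a : ℚ) * x).num : ℚ) / (((((a : ℚ) * x).den * a : ℕ) : ℤ) : ℚ) := by
    push_cast
    rw [← div_div, Rat.num_div_den]
    field_simp
  have h2 := Rat.den_dvd (((a : ℚ) * x).num) ((((a : ℚ) * x).den * a : ℕ) : ℤ)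
  rw [Rat.divInt_eq_div] at h2
  rw [← h] at h2
  exact_mod_cast h2

theorem ht_pos (x : ℚ) : 0 < ht x := lt_of_lt_of_le x.den_pos (le_max_right _ _)

theorem ht_mul_le {a : ℕ} (ha : 1 ≤ a) (x : ℚ) : ht ((a : ℚ) * x) ≤ a * ht x := by
  unfold ht
  apply max_le
  · rcases eq_or_ne x.num 0 with h0 | h0
    · have : x = 0 := Rat.num_eq_zero.mp h0
      rw [this]; simp
    · have h1 : ((a : ℚ) * x).num.natAbs ≤ ((a : ℤ) * x.num).natAbs := by
        apply Nat.le_of_dvd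
        · rw [Int.natAbs_mul, Int.natAbs_natCast]
          exact Nat.mul_pos (by omega) (Int.natAbs_pos.mpr h0)
        · exact Int.natAbs_dvd_natAbs.mpr (num_mul_dvd a x)
      rw [Int.natAbs_mul, Int.natAbs_natCast] at h1
      exact h1.trans (Nat.mul_le_mul le_rfl (le_max_left _ _))
  · have h1 : ((a : ℚ) * x).den ≤ x.den := Nat.le_of_dvd x.den_pos (den_mul_dvd a x)
    calc ((a : ℚ) * x).den ≤ x.den := h1
      _ ≤ max x.num.natAbs x.den := le_max_right _ _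
      _ ≤ a * max x.num.natAbs x.den := Nat.le_mul_of_pos_left _ (by omega)

theorem ht_le_mul {a : ℕ} (ha : 1 ≤ a) (x : ℚ) : ht x ≤ a * ht ((a : ℚ) * x) := by
  unfold ht
  apply max_le
  · rcases eq_or_ne x.num 0 with h0 | h0
    · rw [h0]; simp
    · have hx : x ≠ 0 := fun h => h0 (by rw [h]; rfl)
      have ha0 : (a : ℚ) ≠ 0 := by positivity
      have h1 : x.num.natAbs ≤ ((a : ℚ) * x).num.natAbs := by
        apply Nat.le_of_dvd
        · exact Int.natAbs_pos.mpr (Rat.num_ne_zero.mpr (mul_ne_zero ha0 hx))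
        · exact Int.natAbs_dvd_natAbs.mpr (num_dvd_num_mul a x)
      calc x.num.natAbs ≤ ((a : ℚ) * x).num.natAbs := h1
        _ ≤ max ((a : ℚ) * x).num.natAbs ((a : ℚ) * x).den := le_max_left _ _
        _ ≤ a * max ((a : ℚ) * x).num.natAbs ((a : ℚ) * x).den :=
          Nat.le_mul_of_pos_left _ (by omega)
  · have h1 : x.den ≤ ((a : ℚ) * x).den * a :=
      Nat.le_of_dvd (Nat.mul_pos (Rat.den_pos _) (by omega)) (den_dvd_mul ha x)
    calc x.den ≤ ((a : ℚ) * x).den * a := h1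
      _ = a * ((a : ℚ) * x).den := mul_comm _ _
      _ ≤ a * max ((a : ℚ) * x).num.natAbs ((a : ℚ) * x).den :=
        Nat.mul_le_mul le_rfl (le_max_right _ _)

theorem cast_sub_mul (a b : ℕ) (ε : ℚ) :
    ((a * b : ℕ) : ℚ) - (a : ℚ) * ε = (a : ℚ) * ((b : ℚ) - ε) := by
  push_cast; ring

theorem gc_pos {t : Tr} (hs : Stat t) (y : ℕ) : 0 < gc y t :=
  Nat.gcd_pos_of_pos_left _ (by have := hs.1; omega)

/-- the real logarithm facts used below -/
theorem kappa_nonneg {a : ℕ} (ha : 1 ≤ a) {t : Tr} (hs : Stat t) {κ : ℝ}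
    (hκ : 200 * log (2 * a) ≤ κ * log t.1) : 0 ≤ κ := by
  have hL : 0 < log (t.1 : ℝ) := Real.log_pos (by have := hs.1; exact_mod_cast (by omega : 1 < t.1))
  have h2a : 0 ≤ log (2 * (a : ℝ)) := by
    apply Real.log_nonneg
    have : (1 : ℝ) ≤ a := by exact_mod_cast ha
    linarith
  by_contra hcon
  push Not at hcon
  nlinarith

theorem log_a_bounds {a : ℕ} (ha : 1 ≤ a) : 0 ≤ log (a : ℝ) ∧ log (a : ℝ) ≤ log (2 * (a : ℝ)) := by
  have h1 : (1 : ℝ) ≤ a := by exact_mod_cast ha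
  refine ⟨Real.log_nonneg h1, ?_⟩
  apply Real.log_le_log (by linarith)
  linarith

theorem Up_mu {a b : ℕ} (ha : 1 ≤ a) {t : Tr} (hs : Stat t) {u κ : ℝ} (hu : 0 ≤ u)
    (hκ : 200 * log (2 * a) ≤ κ * log t.1) (h : Up u b t) : Up (u + κ) (a * b) (mu a t) := by
  have hκ0 := kappa_nonneg ha hs hκ
  obtain ⟨hla0, hla⟩ := log_a_bounds ha
  have hgc := gc_pos hs b
  have hgc' := gc_pos (Stat_mu ha hs) (a * b)
  obtain ⟨g, A, q, hg, hA, hq, h1, h2, h3, h4⟩ := mu_spec ha hs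
  have hP3 := hs.1
  have hL' : 0 < log (t.1 : ℝ) := Real.log_pos (by exact_mod_cast (by omega : 1 < t.1))
  have hAa : A ≤ a := by
    calc A ≤ g * A := Nat.le_mul_of_pos_left _ hg
      _ = odd a := h1.symm
      _ ≤ a := odd_le ha
  have hlA0 : 0 ≤ log (A : ℝ) := Real.log_nonneg (by exact_mod_cast hA)
  have hlAa : log (A : ℝ) ≤ log (a : ℝ) :=
    Real.log_le_log (by exact_mod_cast hA) (by exact_mod_cast hAa)
  have hLeq : log (((A * t.1 : ℕ)) : ℝ) = log (A : ℝ) + log (t.1 : ℝ) := by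
    push_cast
    rw [Real.log_mul (by positivity) (by have : (0:ℝ) < t.1 := by exact_mod_cast (by omega : 0 < t.1)
                                         exact this.ne')]
  obtain ⟨u1, u2, u3⟩ := h
  have hkey : u * log (t.1 : ℝ) + 200 * log (2 * (a : ℝ)) ≤ (u + κ) * log ((A * t.1 : ℕ) : ℝ) := by
    rw [hLeq]
    nlinarith [mul_nonneg hu hlA0, mul_nonneg hκ0 hlA0]
  have hgcd : gc b t ≤ gc (a * b) (mu a t) := by
    apply Nat.le_of_dvd hgc'
    unfold gc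
    rw [h4]
    apply Nat.dvd_gcd
    · exact (Nat.gcd_dvd_left _ _).trans (Dvd.intro_left _ rfl)
    · refine (Nat.gcd_dvd_right _ _).trans ?_
      show ((b : ℚ) - t.2.2).num.natAbs ∣ (((a * b : ℕ) : ℚ) - (a : ℚ) * t.2.2).num.natAbs
      rw [cast_sub_mul]
      exact Int.natAbs_dvd_natAbs.mpr (num_dvd_num_mul a _)
  have hlgc : log (gc b t : ℝ) ≤ log (gc (a * b) (mu a t) : ℝ) :=
    Real.log_le_log (by exact_mod_cast hgc) (by exact_mod_cast hgcd)
  refine ⟨?_, ?_, ?_⟩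
  · rw [h4]
    show 64 * log (q : ℝ) ≤ (u + κ) * log ((A * t.1 : ℕ) : ℝ)
    have : log (q : ℝ) ≤ log (t.2.1 : ℝ) := by
      apply Real.log_le_log (by exact_mod_cast hq)
      rw [h2]
      exact_mod_cast Nat.le_mul_of_pos_left _ hg
    linarith
  · rw [h4]
    show 64 * log (ht ((a : ℚ) * t.2.2) : ℝ) ≤ (u + κ) * log ((A * t.1 : ℕ) : ℝ)
    have : log (ht ((a : ℚ) * t.2.2) : ℝ) ≤ log (a : ℝ) + log (ht t.2.2 : ℝ) := by
      rw [← Real.log_mul (by positivity) (by have := ht_pos t.2.2; positivity)]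
      apply Real.log_le_log (by have := ht_pos ((a : ℚ) * t.2.2); positivity)
      exact_mod_cast ht_mul_le ha t.2.2
    linarith
  · have e1 : (mu a t).1 = A * t.1 := by rw [h4]
    rw [e1]
    have e3 : 64 * (log ((A * t.1 : ℕ) : ℝ) - log (gc (a * b) (mu a t) : ℝ)) ≤
        64 * log (a : ℝ) + u * log (t.1 : ℝ) := by
      rw [hLeq]
      linarith
    linarith

theorem Up_mu' {a b : ℕ} (ha : 1 ≤ a) {t : Tr} (hs : Stat t) {u κ : ℝ} (hu : 0 ≤ u) (hu2 : u ≤ 2)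
    (hκ : 200 * log (2 * a) ≤ κ * log t.1) (h : Up u (a * b) (mu a t)) : Up (u + κ) b t := by
  have hκ0 := kappa_nonneg ha hs hκ
  obtain ⟨hla0, hla⟩ := log_a_bounds ha
  have hgc := gc_pos hs b
  have hgc' := gc_pos (Stat_mu ha hs) (a * b)
  obtain ⟨g, A, q, hg, hA, hq, h1, h2, h3, h4⟩ := mu_spec ha hs
  have hP3 := hs.1
  have hL' : 0 < log (t.1 : ℝ) := Real.log_pos (by exact_mod_cast (by omega : 1 < t.1))
  have hAa : A ≤ a := by
    calc A ≤ g * A := Nat.le_mul_of_pos_left _ hg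
      _ = odd a := h1.symm
      _ ≤ a := odd_le ha
  have hga : g ≤ a := by
    calc g ≤ g * A := Nat.le_mul_of_pos_right _ hA
      _ = odd a := h1.symm
      _ ≤ a := odd_le ha
  have hlA0 : 0 ≤ log (A : ℝ) := Real.log_nonneg (by exact_mod_cast hA)
  have hlAa : log (A : ℝ) ≤ log (a : ℝ) :=
    Real.log_le_log (by exact_mod_cast hA) (by exact_mod_cast hAa)
  have hLeq : log (((A * t.1 : ℕ)) : ℝ) = log (A : ℝ) + log (t.1 : ℝ) := by
    push_cast
    rw [Real.log_mul (by positivity) (by have : (0:ℝ) < t.1 := by exact_mod_cast (by omega : 0 < t.1)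
                                         exact this.ne')]
  obtain ⟨u1, u2, u3⟩ := h
  have e1 : (mu a t).1 = A * t.1 := by rw [h4]
  have e2 : (mu a t).2.1 = q := by rw [h4]
  have e3 : (mu a t).2.2 = (a : ℚ) * t.2.2 := by rw [h4]
  rw [e1] at u1 u2 u3
  rw [e2] at u1
  rw [e3] at u2
  have hkey : u * log ((A * t.1 : ℕ) : ℝ) + 64 * log (a : ℝ) ≤ (u + κ) * log (t.1 : ℝ) := by
    rw [hLeq]
    nlinarith [mul_nonneg hu hlA0, mul_nonneg hκ0 hlA0]
  have hgcd : gc (a * b) (mu a t) ≤ a * gc b t := by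
    apply Nat.le_of_dvd (Nat.mul_pos (by omega) hgc)
    unfold gc
    rw [h4, ← Nat.gcd_mul_left]
    apply Nat.dvd_gcd
    · refine (Nat.gcd_dvd_left _ _).trans ?_
      show A * t.1 ∣ a * t.1
      apply Nat.mul_dvd_mul _ dvd_rfl
      exact (Dvd.intro_left g h1.symm).trans (odd_dvd a)
    · refine (Nat.gcd_dvd_right _ _).trans ?_
      show (((a * b : ℕ) : ℚ) - (a : ℚ) * t.2.2).num.natAbs ∣ a * ((b : ℚ) - t.2.2).num.natAbs
      rw [cast_sub_mul]
      have h5 := Int.natAbs_dvd_natAbs.mpr (num_mul_dvd a ((b : ℚ) - t.2.2))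
      rwa [Int.natAbs_mul, Int.natAbs_natCast] at h5
  have hlgc : log (gc (a * b) (mu a t) : ℝ) ≤ log (a : ℝ) + log (gc b t : ℝ) := by
    rw [← Real.log_mul (by positivity) (by positivity)]
    apply Real.log_le_log (by exact_mod_cast hgc')
    exact_mod_cast hgcd
  refine ⟨?_, ?_, ?_⟩
  · have : log (t.2.1 : ℝ) ≤ log (a : ℝ) + log (q : ℝ) := by
      rw [← Real.log_mul (by positivity) (by positivity)]
      apply Real.log_le_log (by rw [h2]; positivity)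
      rw [h2]
      exact_mod_cast Nat.mul_le_mul hga le_rfl
    linarith
  · have : log (ht t.2.2 : ℝ) ≤ log (a : ℝ) + log (ht ((a : ℚ) * t.2.2) : ℝ) := by
      rw [← Real.log_mul (by positivity) (by have := ht_pos ((a : ℚ) * t.2.2); positivity)]
      apply Real.log_le_log (by have := ht_pos t.2.2; positivity)
      exact_mod_cast ht_le_mul ha t.2.2
    linarith
  · have e4 : 64 * (log (t.1 : ℝ) - log (gc b t : ℝ)) ≤
        64 * log (a : ℝ) + u * log ((A * t.1 : ℕ) : ℝ) := by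
      rw [hLeq] at u3 ⊢
      linarith
    linarith

theorem Dn_mu {a b : ℕ} (ha : 1 ≤ a) {t : Tr} (hs : Stat t) {u κ : ℝ} (hu : 0 ≤ u) (hu2 : u ≤ 2)
    (hκ : 200 * log (2 * a) ≤ κ * log t.1) (h : Dn u b t) : Dn (u - κ) (a * b) (mu a t) := by
  have hκ0 := kappa_nonneg ha hs hκ
  obtain ⟨hla0, hla⟩ := log_a_bounds ha
  obtain ⟨g, A, q, hg, hA, hq, h1, h2, h3, h4⟩ := mu_spec ha hs
  have hP3 := hs.1
  have hL' : 0 < log (t.1 : ℝ) := Real.log_pos (by exact_mod_cast (by omega : 1 < t.1))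
  have hAa : A ≤ a := by
    calc A ≤ g * A := Nat.le_mul_of_pos_left _ hg
      _ = odd a := h1.symm
      _ ≤ a := odd_le ha
  have hlA0 : 0 ≤ log (A : ℝ) := Real.log_nonneg (by exact_mod_cast hA)
  have hlAa : log (A : ℝ) ≤ log (a : ℝ) :=
    Real.log_le_log (by exact_mod_cast hA) (by exact_mod_cast hAa)
  have hLeq : log (((A * t.1 : ℕ)) : ℝ) = log (A : ℝ) + log (t.1 : ℝ) := by
    push_cast
    rw [Real.log_mul (by positivity) (by have : (0:ℝ) < t.1 := by exact_mod_cast (by omega : 0 < t.1)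
                                         exact this.ne')]
  obtain ⟨k, hk1, hk2⟩ := h
  have e1 : (mu a t).1 = A * t.1 := by rw [h4]
  have e2 : (mu a t).2.1 = q := by rw [h4]
  have hkey : 12 * (u - κ) * log ((A * t.1 : ℕ) : ℝ) ≤ 12 * u * log (t.1 : ℝ) := by
    rw [hLeq]
    nlinarith [mul_nonneg hu hlA0, mul_nonneg hκ0 hlA0, mul_nonneg hu hla0]
  have hlog2 : 0 < log (2 : ℝ) := Real.log_pos (by norm_num)
  set V := padicValNat 2 a with hV
  refine ⟨k + V, ?_, ?_⟩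
  · rw [e1]
    push_cast
    have : 0 ≤ (V : ℝ) * log 2 := by positivity
    push_cast at hkey
    nlinarith
  · rw [e1, e2]
    have hab : (a : ℝ) = (g : ℝ) * A * 2 ^ V := by
      have := odd_mul_pow a
      rw [h1, ← hV] at this
      exact_mod_cast this.symm
    have hlhs : (q : ℝ) * ((a * b : ℕ) : ℝ) - ((A * t.1 : ℕ) : ℝ) * 2 ^ (k + V) =
        ((A : ℝ) * 2 ^ V) * ((t.2.1 : ℝ) * b - t.1 * 2 ^ k) := by
      rw [h2]
      push_cast
      rw [hab]
      ring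
    rw [hlhs, abs_mul, abs_of_nonneg (by positivity : (0 : ℝ) ≤ (A : ℝ) * 2 ^ V)]
    calc (A : ℝ) * 2 ^ V * |(t.2.1 : ℝ) * b - t.1 * 2 ^ k|
        ≤ (A : ℝ) * 2 ^ V * (2 ^ k * t.1 * exp (-(12 * u * log t.1))) :=
          mul_le_mul_of_nonneg_left hk2 (by positivity)
      _ ≤ (A : ℝ) * 2 ^ V * (2 ^ k * t.1 * exp (-(12 * (u - κ) * log ((A * t.1 : ℕ) : ℝ)))) := by
          apply mul_le_mul_of_nonneg_left _ (by positivity)
          apply mul_le_mul_of_nonneg_left _ (by positivity)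
          apply Real.exp_le_exp.mpr
          linarith
      _ = 2 ^ (k + V) * ((A * t.1 : ℕ) : ℝ) *
            exp (-(12 * (u - κ) * log ((A * t.1 : ℕ) : ℝ))) := by
          push_cast
          ring

theorem Dn_mu' {a b : ℕ} (ha : 1 ≤ a) {t : Tr} (hs : Stat t) (hP : a ≤ t.1) {u κ : ℝ} (hu : 1 ≤ u)
    (hκ : 200 * log (2 * a) ≤ κ * log t.1) (h : Dn u (a * b) (mu a t)) : Dn (u - κ) b t := by
  have hκ0 := kappa_nonneg ha hs hκ
  obtain ⟨hla0, hla⟩ := log_a_bounds ha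
  obtain ⟨g, A, q, hg, hA, hq, h1, h2, h3, h4⟩ := mu_spec ha hs
  have hP3 := hs.1
  have hL' : 0 < log (t.1 : ℝ) := Real.log_pos (by exact_mod_cast (by omega : 1 < t.1))
  have hlA0 : 0 ≤ log (A : ℝ) := Real.log_nonneg (by exact_mod_cast hA)
  have hLeq : log (((A * t.1 : ℕ)) : ℝ) = log (A : ℝ) + log (t.1 : ℝ) := by
    push_cast
    rw [Real.log_mul (by positivity) (by have : (0:ℝ) < t.1 := by exact_mod_cast (by omega : 0 < t.1)
                                         exact this.ne')]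
  obtain ⟨k, hk1, hk2⟩ := h
  have e1 : (mu a t).1 = A * t.1 := by rw [h4]
  have e2 : (mu a t).2.1 = q := by rw [h4]
  rw [e1] at hk1 hk2
  rw [e2] at hk2
  have hlog2 : 0 < log (2 : ℝ) := Real.log_pos (by norm_num)
  set V := padicValNat 2 a with hV
  have hVa : (V : ℝ) * log 2 ≤ log (a : ℝ) := by
    rw [← Real.log_pow]
    apply Real.log_le_log (by positivity)
    exact_mod_cast pow_le_self ha
  have hlaP : log (a : ℝ) ≤ log (t.1 : ℝ) :=
    Real.log_le_log (by positivity) (by exact_mod_cast hP)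
  have hVk : V ≤ k := by
    have h5 : (V : ℝ) * log 2 ≤ k * log 2 := by
      rw [hLeq] at hk1
      nlinarith [mul_nonneg (by linarith : (0:ℝ) ≤ u) hlA0]
    have h6 : (V : ℝ) ≤ k := le_of_mul_le_mul_right h5 hlog2
    exact_mod_cast h6
  obtain ⟨k', rfl⟩ := Nat.exists_eq_add_of_le hVk
  refine ⟨k', ?_, ?_⟩
  · rw [hLeq] at hk1
    push_cast at hk1
    nlinarith [mul_nonneg (by linarith : (0:ℝ) ≤ u) hlA0]
  · have hab : (a : ℝ) = (g : ℝ) * A * 2 ^ V := by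
      have := odd_mul_pow a
      rw [h1, ← hV] at this
      exact_mod_cast this.symm
    have hlhs : (q : ℝ) * ((a * b : ℕ) : ℝ) - ((A * t.1 : ℕ) : ℝ) * 2 ^ (V + k') =
        ((A : ℝ) * 2 ^ V) * ((t.2.1 : ℝ) * b - t.1 * 2 ^ k') := by
      rw [h2]
      push_cast
      rw [hab]
      ring
    have hpos : (0 : ℝ) < (A : ℝ) * 2 ^ V := by positivity
    rw [hlhs, abs_mul, abs_of_pos hpos] at hk2
    have hrhs : (2 : ℝ) ^ (V + k') * ((A * t.1 : ℕ) : ℝ) *
        exp (-(12 * u * log ((A * t.1 : ℕ) : ℝ))) =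
        ((A : ℝ) * 2 ^ V) * (2 ^ k' * t.1 * exp (-(12 * u * log ((A * t.1 : ℕ) : ℝ)))) := by
      push_cast
      ring
    rw [hrhs] at hk2
    have hk3 := le_of_mul_le_mul_left hk2 hpos
    refine hk3.trans ?_
    apply mul_le_mul_of_nonneg_left _ (by positivity)
    apply Real.exp_le_exp.mpr
    rw [hLeq]
    nlinarith [mul_nonneg (by linarith : (0:ℝ) ≤ u) hlA0, mul_nonneg hκ0 hL'.le]

end Pool.Agent.T6.H76.DP
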