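import Pool.Agent.T6.H76.DP.Defs

set_option autoImplicit false

/-! Module Sh: shifts of marks by an integer. -/

namespace Pool.Agent.T6.H76.DP

open Real Filter

theorem ht_pos_sh (r : ℚ) : 1 ≤ ht r := le_trans r.pos (le_max_right _ _)

theorem ht_add_int {a : ℕ} (ha : 1 ≤ a) {z : ℤ} (hz : |z| ≤ a) (r : ℚ) :
    ht (r + z) ≤ 2 * a * ht r := by
  have hden : (r + z).den = r.den := by
    rw [Rat.add_intCast_den]
  have hnum : (r + z).num = r.num + z * r.den := by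
    have h1 : ((r + z).num : ℚ) = ((r.num + z * r.den : ℤ) : ℚ) := by
      have h2 : ((r + z).num : ℚ) = (r + z) * ((r + z).den : ℚ) := (Rat.mul_den_eq_num _).symm
      rw [h2, hden, add_mul, Rat.mul_den_eq_num]
      push_cast
      ring
    exact_mod_cast h1
  have h1 : r.num.natAbs ≤ ht r := le_max_left _ _
  have h2 : r.den ≤ ht r := le_max_right _ _
  unfold ht
  rw [hden, hnum]
  apply max_le
  · have h3 : (r.num + z * r.den).natAbs ≤ r.num.natAbs + z.natAbs * r.den := by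
      refine (Int.natAbs_add_le _ _).trans ?_
      rw [Int.natAbs_mul, Int.natAbs_natCast]
    have h4 : z.natAbs ≤ a := by
      have h5 := Int.natCast_natAbs z
      omega
    have h5 : z.natAbs * r.den ≤ a * ht r := Nat.mul_le_mul h4 h2
    have h6 : ht r ≤ a * ht r := Nat.le_mul_of_pos_left _ ha
    calc _ ≤ _ := h3
      _ ≤ ht r + a * ht r := Nat.add_le_add h1 h5
      _ ≤ a * ht r + a * ht r := Nat.add_le_add_right h6 _
      _ = 2 * a * ht r := by ring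
  · refine h2.trans ?_
    exact Nat.le_mul_of_pos_left _ (by omega)

theorem gc_sh {z : ℤ} {y y' : ℕ} (hy : (y' : ℤ) = y + z) (t : Tr) : gc y' (sh z t) = gc y t := by
  unfold gc sh
  have h : (y' : ℚ) = y + z := by exact_mod_cast hy
  have h2 : (y' : ℚ) - (t.2.2 + z) = (y : ℚ) - t.2.2 := by rw [h]; ring
  show Nat.gcd t.1 ((y' : ℚ) - (t.2.2 + z)).num.natAbs = _
  rw [h2]

theorem log_two_a {a : ℕ} (ha : 1 ≤ a) : log 2 ≤ log (2 * a) := by
  apply Real.log_le_log (by norm_num)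
  have : (1 : ℝ) ≤ a := by exact_mod_cast ha
  linarith

theorem Up_sh {a : ℕ} (ha : 1 ≤ a) {z : ℤ} (hz : |z| ≤ a) {y y' : ℕ} (hy : (y' : ℤ) = y + z)
    {t : Tr} (hs : Stat t) {u κ : ℝ} (hκ : 64 * log (2 * a) ≤ κ * log t.1) (h : Up u y t) :
    Up (u + κ) y' (sh z t) := by
  obtain ⟨h1, h2, h3⟩ := h
  have hl2 : 0 < log 2 := Real.log_pos (by norm_num)
  have hla := log_two_a ha
  have hκ0 : 0 ≤ κ * log t.1 := by linarith
  refine ⟨?_, ?_, ?_⟩
  · show 64 * log t.2.1 ≤ (u + κ) * log t.1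
    rw [add_mul]
    linarith
  · show 64 * log (ht (t.2.2 + z)) ≤ (u + κ) * log t.1
    have h4 := ht_add_int ha hz t.2.2
    have h5 : (1 : ℝ) ≤ ht (t.2.2 + z) := by exact_mod_cast ht_pos_sh _
    have h6 : (1 : ℝ) ≤ ht t.2.2 := by exact_mod_cast ht_pos_sh _
    have ha' : (1 : ℝ) ≤ a := by exact_mod_cast ha
    have h7 : ((ht (t.2.2 + z) : ℕ) : ℝ) ≤ 2 * a * ht t.2.2 := by exact_mod_cast h4
    have h8 : log (ht (t.2.2 + z)) ≤ log (2 * a) + log (ht t.2.2) := by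
      rw [← Real.log_mul (by positivity) (by positivity)]
      exact Real.log_le_log (by linarith) h7
    rw [add_mul]
    linarith
  · rw [gc_sh hy]
    show 64 * (log t.1 - log (gc y t)) ≤ (u + κ) * log t.1
    rw [add_mul]
    linarith

theorem Dn_sh {a : ℕ} (ha : 1 ≤ a) {z : ℤ} (hz : |z| ≤ a) {y y' : ℕ} (hy : (y' : ℤ) = y + z)
    {t : Tr} (hs : Stat t) (hq : t.2.1 * a ≤ t.1) {u κ : ℝ} (hu : 0 ≤ u)
    (hκ : 64 * log (2 * a) ≤ κ * log t.1) (h : Dn u y t) : Dn (u - κ) y' (sh z t) := by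
  obtain ⟨k, h1, h2⟩ := h
  have hl2 : 0 < log 2 := Real.log_pos (by norm_num)
  have hla := log_two_a ha
  obtain ⟨L, hL⟩ : ∃ L, L = log t.1 := ⟨_, rfl⟩
  rw [← hL] at h1 h2 hκ
  have hκ0 : 64 * log 2 ≤ κ * L := by linarith
  refine ⟨k, ?_, ?_⟩
  · show 12 * (u - κ) * log t.1 ≤ k * log 2
    rw [← hL]
    have : 12 * (u - κ) * L = 12 * u * L - 12 * (κ * L) := by ring
    rw [this]
    linarith
  · show |(t.2.1 : ℝ) * y' - t.1 * 2 ^ k| ≤ 2 ^ k * t.1 * exp (-(12 * (u - κ) * log t.1))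
    rw [← hL]
    have hyr : (y' : ℝ) = y + z := by exact_mod_cast hy
    have hzr : |(z : ℝ)| ≤ a := by exact_mod_cast hz
    have hP : (0 : ℝ) < t.1 := by
      have := hs.1
      exact_mod_cast (by omega : 0 < t.1)
    have hqr : (t.2.1 : ℝ) * a ≤ t.1 := by exact_mod_cast hq
    have hq0 : (0 : ℝ) ≤ t.2.1 := Nat.cast_nonneg _
    have e1 : |(t.2.1 : ℝ) * y' - t.1 * 2 ^ k| ≤ |(t.2.1 : ℝ) * y - t.1 * 2 ^ k| + t.1 := by
      have e2 : (t.2.1 : ℝ) * y' - t.1 * 2 ^ k = ((t.2.1 : ℝ) * y - t.1 * 2 ^ k) + t.2.1 * z := by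
        rw [hyr]; ring
      rw [e2]
      refine (abs_add_le _ _).trans ?_
      have e3 : |(t.2.1 : ℝ) * z| ≤ t.1 := by
        rw [abs_mul, abs_of_nonneg hq0]
        exact (mul_le_mul_of_nonneg_left hzr hq0).trans hqr
      linarith
    have e4 : exp (12 * u * L) ≤ 2 ^ k := by
      have : (2 : ℝ) ^ k = exp (k * log 2) := by
        rw [mul_comm, Real.exp_mul, Real.exp_log (by norm_num), Real.rpow_natCast]
      rw [this]
      exact Real.exp_le_exp.2 h1
    have e5 : (1 : ℝ) ≤ 2 ^ k * exp (-(12 * u * L)) := by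
      rw [Real.exp_neg, ← div_eq_mul_inv, le_div_iff₀ (Real.exp_pos _), one_mul]
      exact e4
    have e6 : (t.1 : ℝ) ≤ 2 ^ k * t.1 * exp (-(12 * u * L)) := by
      have := mul_le_mul_of_nonneg_left e5 hP.le
      calc (t.1 : ℝ) = t.1 * 1 := (mul_one _).symm
        _ ≤ t.1 * (2 ^ k * exp (-(12 * u * L))) := this
        _ = _ := by ring
    have e7 : 2 * exp (-(12 * u * L)) ≤ exp (-(12 * (u - κ) * L)) := by
      have e8 : -(12 * (u - κ) * L) = 12 * (κ * L) + -(12 * u * L) := by ring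
      rw [e8, Real.exp_add]
      apply mul_le_mul_of_nonneg_right _ (Real.exp_pos _).le
      have e9 : (2 : ℝ) = exp (log 2) := (Real.exp_log (by norm_num)).symm
      calc (2 : ℝ) = exp (log 2) := e9
        _ ≤ _ := Real.exp_le_exp.2 (by linarith)
    have e10 : (0 : ℝ) ≤ 2 ^ k * t.1 := by positivity
    have e11 := mul_le_mul_of_nonneg_left e7 e10
    calc _ ≤ _ := e1
      _ ≤ 2 ^ k * t.1 * exp (-(12 * u * L)) + 2 ^ k * t.1 * exp (-(12 * u * L)) := add_le_add h2 e6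
      _ = 2 ^ k * t.1 * (2 * exp (-(12 * u * L))) := by ring
      _ ≤ _ := e11

end Pool.Agent.T6.H76.DP
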