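import Pool.Agent.T6.H76.DP.RelM
import Pool.Agent.T6.H76.DP.Sh
import Pool.Agent.T6.H76.DP.Mu

set_option autoImplicit false

/-!
# The set of bad parameters has small measure
-/

namespace Pool.Agent.T6.H76.DP

open Real MeasureTheory

lemma log_pos' {t : Tr} (hs : Stat t) : 0 < log t.1 := by
  apply Real.log_pos
  have : 3 ≤ t.1 := hs.1
  have h : (3 : ℝ) ≤ t.1 := by exact_mod_cast this
  linarith

lemma Up_mono {u v : ℝ} (huv : u ≤ v) {y : ℕ} {t : Tr} (hs : Stat t) (h : Up u y t) : Up v y t := by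
  have h1 : u * log t.1 ≤ v * log t.1 := mul_le_mul_of_nonneg_right huv (log_pos' hs).le
  exact ⟨h.1.trans h1, h.2.1.trans h1, h.2.2.trans h1⟩

lemma Dn_anti {u v : ℝ} (huv : u ≤ v) {y : ℕ} {t : Tr} (hs : Stat t) (h : Dn v y t) : Dn u y t := by
  obtain ⟨k, h1, h2⟩ := h
  have h3 : u * log t.1 ≤ v * log t.1 := mul_le_mul_of_nonneg_right huv (log_pos' hs).le
  refine ⟨k, by nlinarith, h2.trans ?_⟩
  refine mul_le_mul_of_nonneg_left ?_ (by positivity)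
  apply Real.exp_le_exp.2
  nlinarith

lemma vol_small {S : Set ℝ} {κ : ℝ} (h : ∀ u ∈ S, ∀ v ∈ S, u ≤ v → v - u ≤ κ) :
    volume S ≤ ENNReal.ofReal κ := by
  refine (Real.volume_le_diam S).trans ?_
  refine Metric.ediam_le fun u hu v hv => ?_
  rw [edist_dist, Real.dist_eq]
  apply ENNReal.ofReal_le_ofReal
  rcases le_total u v with huv | huv
  · rw [abs_sub_comm, abs_of_nonneg (by linarith)]
    exact h u hu v hv huv
  · rw [abs_of_nonneg (by linarith)]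
    exact h v hv u hu huv

lemma vol_up {S : Set ℝ} {κ : ℝ} (F : ℝ → Prop) (hF : ∀ u v, u ≤ v → F u → F v)
    (h1 : ∀ u ∈ S, F (u + κ)) (h2 : ∀ u ∈ S, ¬ F u) : volume S ≤ ENNReal.ofReal κ := by
  apply vol_small
  intro u hu v hv _
  by_contra hcon
  exact h2 v hv (hF (u + κ) v (by linarith) (h1 u hu))

lemma vol_dn {S : Set ℝ} {κ : ℝ} (F : ℝ → Prop) (hF : ∀ u v, u ≤ v → F v → F u)
    (h1 : ∀ u ∈ S, F (u - κ)) (h2 : ∀ u ∈ S, ¬ F u) : volume S ≤ ENNReal.ofReal κ := by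
  apply vol_small
  intro u hu v hv _
  by_contra hcon
  exact h2 u hu (hF u (v - κ) (by linarith) (h1 v hv))

/-- parameters in `[1, 2]` at which the triple `t` is not transported correctly -/
def BadT (a b : ℕ) (t : Tr) : Set ℝ :=
  {u | 1 ≤ u ∧ u ≤ 2 ∧ ¬ ((t ∈ Mk u b ↔ mu a t ∈ Mk u (a * b)) ∧
    (t ∈ Mk u b ↔ sh (-(a : ℤ)) t ∈ Mk u (b - a)))}

lemma sh_sh (z : ℤ) (t : Tr) : sh z (sh (-z) t) = t := by
  simp [sh]

lemma Stat_sh {z : ℤ} {t : Tr} (hs : Stat t) : Stat (sh z t) := hs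

lemma q_bound {a : ℕ} (ha : 1 ≤ a) {t : Tr} (hs : Stat t) {u : ℝ} (hu2 : u ≤ 2) {y : ℕ}
    (hκ : 200 * log (2 * a) ≤ log t.1 / 2) (h : Up u y t) : t.2.1 * a ≤ t.1 := by
  have hL := log_pos' hs
  have h1 := h.1
  have hq0 : 0 < t.2.1 := hs.2.2.1.pos
  have hP0 : 0 < t.1 := by have := hs.1; omega
  have hq0' : (0 : ℝ) < t.2.1 := by exact_mod_cast hq0
  have hP0' : (0 : ℝ) < t.1 := by exact_mod_cast hP0
  have ha' : (1 : ℝ) ≤ a := by exact_mod_cast ha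
  have h2 : log (2 * a) = log 2 + log a := Real.log_mul (by norm_num) (by positivity)
  have h3 : 0 ≤ log (a : ℝ) := Real.log_nonneg ha'
  have h4 : 0 < log (2 : ℝ) := Real.log_pos (by norm_num)
  have h5 : log ((t.2.1 : ℝ) * a) ≤ log t.1 := by
    rw [Real.log_mul (by positivity) (by positivity)]
    have : u * log t.1 ≤ 2 * log t.1 := mul_le_mul_of_nonneg_right hu2 hL.le
    linarith
  have h6 := (Real.log_le_log_iff (by positivity) (by positivity)).1 h5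
  exact_mod_cast h6

lemma Bad_vol {a b : ℕ} (ha : 1 ≤ a) (hab : a ≤ b) {t : Tr} (hs : Stat t)
    (hbig : 400 * log (2 * a) ≤ log t.1) (haP : a ≤ t.1) :
    volume (BadT a b t) ≤ ENNReal.ofReal (8 * (200 * log (2 * a) / log t.1)) := by
  have hL := log_pos' hs
  set κ : ℝ := 200 * log (2 * a) / log t.1 with hκ
  have ha' : (1 : ℝ) ≤ a := by exact_mod_cast ha
  have hl2 : 0 < log (2 * (a : ℝ)) := Real.log_pos (by linarith)
  have hκL : κ * log t.1 = 200 * log (2 * a) := by rw [hκ]; field_simp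
  have hκ0 : 0 < κ := by positivity
  have e1 : 200 * log (2 * a) ≤ κ * log t.1 := hκL.ge
  have e2 : 64 * log (2 * a) ≤ κ * log t.1 := by rw [hκL]; nlinarith
  have hhalf : 200 * log (2 * a) ≤ log t.1 / 2 := by linarith
  have hsm := Stat_mu ha hs
  have hss : Stat (sh (-(a : ℤ)) t) := hs
  have hz1 : |(-(a : ℤ))| ≤ a := by simp
  have hz2 : |(a : ℤ)| ≤ a := by simp
  have hy1 : ((b - a : ℕ) : ℤ) = b + (-(a : ℤ)) := by push_cast [hab]; ring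
  have hy2 : (b : ℤ) = ((b - a : ℕ) : ℤ) + a := by push_cast [hab]; ring
  set S1 : Set ℝ := {u | (1 ≤ u ∧ u ≤ 2 ∧ t ∈ Mk u b) ∧ ¬ Up u (a * b) (mu a t)} with hS1
  set S2 : Set ℝ := {u | (1 ≤ u ∧ u ≤ 2 ∧ t ∈ Mk u b) ∧ ¬ Dn u (a * b) (mu a t)} with hS2
  set S3 : Set ℝ := {u | (1 ≤ u ∧ u ≤ 2 ∧ mu a t ∈ Mk u (a * b)) ∧ ¬ Up u b t} with hS3
  set S4 : Set ℝ := {u | (1 ≤ u ∧ u ≤ 2 ∧ mu a t ∈ Mk u (a * b)) ∧ ¬ Dn u b t} with hS4
  set S5 : Set ℝ := {u | (1 ≤ u ∧ u ≤ 2 ∧ t ∈ Mk u b) ∧ ¬ Up u (b - a) (sh (-(a : ℤ)) t)} with hS5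
  set S6 : Set ℝ := {u | (1 ≤ u ∧ u ≤ 2 ∧ t ∈ Mk u b) ∧ ¬ Dn u (b - a) (sh (-(a : ℤ)) t)} with hS6
  set S7 : Set ℝ := {u | (1 ≤ u ∧ u ≤ 2 ∧ sh (-(a : ℤ)) t ∈ Mk u (b - a)) ∧ ¬ Up u b t} with hS7
  set S8 : Set ℝ := {u | (1 ≤ u ∧ u ≤ 2 ∧ sh (-(a : ℤ)) t ∈ Mk u (b - a)) ∧ ¬ Dn u b t} with hS8
  have v1 : volume S1 ≤ ENNReal.ofReal κ := by
    refine vol_up (fun u => Up u (a * b) (mu a t)) (fun u v huv => Up_mono huv hsm) ?_ (fun u hu => hu.2)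
    rintro u ⟨⟨h1, h2, h3⟩, _⟩
    exact Up_mu ha hs (by linarith) e1 h3.2.1
  have v2 : volume S2 ≤ ENNReal.ofReal κ := by
    refine vol_dn (fun u => Dn u (a * b) (mu a t)) (fun u v huv => Dn_anti huv hsm) ?_ (fun u hu => hu.2)
    rintro u ⟨⟨h1, h2, h3⟩, _⟩
    exact Dn_mu ha hs (by linarith) h2 e1 h3.2.2
  have v3 : volume S3 ≤ ENNReal.ofReal κ := by
    refine vol_up (fun u => Up u b t) (fun u v huv => Up_mono huv hs) ?_ (fun u hu => hu.2)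
    rintro u ⟨⟨h1, h2, h3⟩, _⟩
    exact Up_mu' ha hs (by linarith) h2 e1 h3.2.1
  have v4 : volume S4 ≤ ENNReal.ofReal κ := by
    refine vol_dn (fun u => Dn u b t) (fun u v huv => Dn_anti huv hs) ?_ (fun u hu => hu.2)
    rintro u ⟨⟨h1, h2, h3⟩, _⟩
    exact Dn_mu' ha hs haP h1 e1 h3.2.2
  have v5 : volume S5 ≤ ENNReal.ofReal κ := by
    refine vol_up (fun u => Up u (b - a) (sh (-(a : ℤ)) t)) (fun u v huv => Up_mono huv hss) ?_ (fun u hu => hu.2)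
    rintro u ⟨⟨h1, h2, h3⟩, _⟩
    exact Up_sh ha hz1 hy1 hs e2 h3.2.1
  have v6 : volume S6 ≤ ENNReal.ofReal κ := by
    refine vol_dn (fun u => Dn u (b - a) (sh (-(a : ℤ)) t)) (fun u v huv => Dn_anti huv hss) ?_ (fun u hu => hu.2)
    rintro u ⟨⟨h1, h2, h3⟩, _⟩
    exact Dn_sh ha hz1 hy1 hs (q_bound ha hs h2 hhalf h3.2.1) (by linarith) e2 h3.2.2
  have v7 : volume S7 ≤ ENNReal.ofReal κ := by
    refine vol_up (fun u => Up u b t) (fun u v huv => Up_mono huv hs) ?_ (fun u hu => hu.2)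
    rintro u ⟨⟨h1, h2, h3⟩, _⟩
    have := Up_sh ha hz2 hy2 hss e2 h3.2.1
    rwa [sh_sh] at this
  have v8 : volume S8 ≤ ENNReal.ofReal κ := by
    refine vol_dn (fun u => Dn u b t) (fun u v huv => Dn_anti huv hs) ?_ (fun u hu => hu.2)
    rintro u ⟨⟨h1, h2, h3⟩, _⟩
    have := Dn_sh ha hz2 hy2 hss (q_bound ha hss h2 hhalf h3.2.1) (by linarith) e2 h3.2.2
    rwa [sh_sh] at this
  have hsub : BadT a b t ⊆ S1 ∪ S2 ∪ S3 ∪ S4 ∪ S5 ∪ S6 ∪ S7 ∪ S8 := by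
    rintro u ⟨h1, h2, h3⟩
    simp only [hS1, hS2, hS3, hS4, hS5, hS6, hS7, hS8, Set.mem_union, Set.mem_setOf_eq]
    by_contra hcon
    push Not at hcon
    obtain ⟨⟨⟨⟨⟨⟨⟨c1, c2⟩, c3⟩, c4⟩, c5⟩, c6⟩, c7⟩, c8⟩ := hcon
    refine h3 ⟨⟨fun h => ⟨hsm, c1 ⟨h1, h2, h⟩, c2 ⟨h1, h2, h⟩⟩, fun h => ⟨hs, c3 ⟨h1, h2, h⟩, c4 ⟨h1, h2, h⟩⟩⟩,
      ⟨fun h => ⟨hss, c5 ⟨h1, h2, h⟩, c6 ⟨h1, h2, h⟩⟩, fun h => ⟨hs, c7 ⟨h1, h2, h⟩, c8 ⟨h1, h2, h⟩⟩⟩⟩
  have h8 : ENNReal.ofReal (8 * κ) = ENNReal.ofReal κ + ENNReal.ofReal κ + ENNReal.ofReal κ +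
      ENNReal.ofReal κ + ENNReal.ofReal κ + ENNReal.ofReal κ + ENNReal.ofReal κ + ENNReal.ofReal κ := by
    rw [ENNReal.ofReal_mul (by norm_num)]
    have : ENNReal.ofReal 8 = 8 := by norm_num
    rw [this]
    ring
  rw [h8]
  refine (measure_mono hsub).trans ?_
  refine (measure_union_le _ _).trans (add_le_add ?_ v8)
  refine (measure_union_le _ _).trans (add_le_add ?_ v7)
  refine (measure_union_le _ _).trans (add_le_add ?_ v6)
  refine (measure_union_le _ _).trans (add_le_add ?_ v5)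
  refine (measure_union_le _ _).trans (add_le_add ?_ v4)
  refine (measure_union_le _ _).trans (add_le_add ?_ v3)
  exact (measure_union_le _ _).trans (add_le_add v1 v2)

/-- a triple with a bad parameter is a relaxed mark -/
lemma Bad_Rel {a b : ℕ} (ha : 1 ≤ a) (hab : a ≤ b) {t : Tr} (hs : Stat t)
    (hbig : 400 * log (2 * a) ≤ log t.1) (haP : a ≤ t.1) {u : ℝ} (hu : u ∈ BadT a b t) :
    t ∈ Rel b := by
  have hL := log_pos' hs
  have ha' : (1 : ℝ) ≤ a := by exact_mod_cast ha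
  have hl2 : 0 < log (2 * (a : ℝ)) := Real.log_pos (by linarith)
  have e1 : 200 * log (2 * a) ≤ (1 / 2) * log t.1 := by linarith
  have e2 : 64 * log (2 * a) ≤ (1 / 2) * log t.1 := by linarith
  have hhalf : 200 * log (2 * a) ≤ log t.1 / 2 := by linarith
  have hss : Stat (sh (-(a : ℤ)) t) := hs
  have hz2 : |(a : ℤ)| ≤ a := by simp
  have hy2 : (b : ℤ) = ((b - a : ℕ) : ℤ) + a := by push_cast [hab]; ring
  obtain ⟨h1, h2, h3⟩ := hu
  have key : t ∈ Mk u b ∨ mu a t ∈ Mk u (a * b) ∨ sh (-(a : ℤ)) t ∈ Mk u (b - a) := by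
    by_contra hcon
    push Not at hcon
    exact h3 ⟨⟨fun h => absurd h hcon.1, fun h => absurd h hcon.2.1⟩,
      ⟨fun h => absurd h hcon.1, fun h => absurd h hcon.2.2⟩⟩
  rcases key with h | h | h
  · exact Mk_subset_Rel h1 h2 b h
  · refine ⟨hs, Up_mono (by linarith) hs (Up_mu' ha hs (by linarith) h2 e1 h.2.1),
      Dn_anti (by linarith) hs (Dn_mu' ha hs haP h1 e1 h.2.2)⟩
  · have k1 := Up_sh ha hz2 hy2 hss e2 h.2.1
    have k2 := Dn_sh ha hz2 hy2 hss (q_bound ha hss h2 hhalf h.2.1) (by linarith) e2 h.2.2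
    rw [sh_sh] at k1 k2
    exact ⟨hs, Up_mono (by linarith) hs k1, Dn_anti (by linarith) hs k2⟩

/-- the bad parameters in dyadic scale -/
lemma Bad_scale {a b : ℕ} (ha : 1 ≤ a) (hab : a ≤ b) {s : ℝ} (hs0 : 0 < s)
    (hbig : 400 * log (2 * a) ≤ s) (haP : (a : ℝ) ≤ exp s) :
    volume {u | ∃ t : Tr, Stat t ∧ s ≤ log t.1 ∧ log t.1 < 2 * s ∧ u ∈ BadT a b t} ≤
      ENNReal.ofReal (8 * (200 * log (2 * a) / s)) := by
  have haP' : ∀ t : Tr, Stat t → s ≤ log t.1 → a ≤ t.1 := by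
    intro t hs h
    have hP0 : 0 < t.1 := by have := hs.1; omega
    have hP0' : (0 : ℝ) < t.1 := by exact_mod_cast hP0
    have h1 : exp s ≤ t.1 := by
      calc exp s ≤ exp (log t.1) := Real.exp_le_exp.2 h
        _ = t.1 := Real.exp_log hP0'
    exact_mod_cast haP.trans h1
  by_cases hne : {u | ∃ t : Tr, Stat t ∧ s ≤ log t.1 ∧ log t.1 < 2 * s ∧ u ∈ BadT a b t}.Nonempty
  swap
  · rw [Set.not_nonempty_iff_eq_empty] at hne
    rw [hne]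
    simp
  obtain ⟨u0, t0, hs1, hs2, hs3, hu0⟩ := hne
  have hR0 := Bad_Rel ha hab hs1 (hbig.trans hs2) (haP' t0 hs1 hs2) hu0
  have hsub : {u | ∃ t : Tr, Stat t ∧ s ≤ log t.1 ∧ log t.1 < 2 * s ∧ u ∈ BadT a b t} ⊆
      BadT a b t0 := by
    rintro u ⟨t, h1, h2, h3, hu⟩
    have hR := Bad_Rel ha hab h1 (hbig.trans h2) (haP' t h1 h2) hu
    have : t = t0 := by
      by_contra hne
      rcases le_total t.1 t0.1 with h | h
      · have := Rel_sparse hR hR0 hne h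
        linarith
      · have := Rel_sparse hR0 hR (Ne.symm hne) h
        linarith
    rwa [this] at hu
  refine (measure_mono hsub).trans ((Bad_vol ha hab hs1 (hbig.trans hs2) (haP' t0 hs1 hs2)).trans ?_)
  apply ENNReal.ofReal_le_ofReal
  have ha' : (1 : ℝ) ≤ a := by exact_mod_cast ha
  have hl2 : 0 < log (2 * (a : ℝ)) := Real.log_pos (by linarith)
  gcongr

/-- the whole bad set -/
lemma Bad_total {a b : ℕ} (ha : 1 ≤ a) (hab : a ≤ b) {s : ℝ} (hs0 : 0 < s)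
    (hbig : 400 * log (2 * a) ≤ s) (haP : (a : ℝ) ≤ exp s) :
    volume {u | ∃ t : Tr, Stat t ∧ s ≤ log t.1 ∧ u ∈ BadT a b t} ≤
      ENNReal.ofReal (3200 * log (2 * a) / s) := by
  have ha' : (1 : ℝ) ≤ a := by exact_mod_cast ha
  have hl2 : 0 < log (2 * (a : ℝ)) := Real.log_pos (by linarith)
  have hsub : {u | ∃ t : Tr, Stat t ∧ s ≤ log t.1 ∧ u ∈ BadT a b t} ⊆
      ⋃ j : ℕ, {u | ∃ t : Tr, Stat t ∧ 2 ^ j * s ≤ log t.1 ∧ log t.1 < 2 * (2 ^ j * s) ∧ u ∈ BadT a b t} := by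
    rintro u ⟨t, h1, h2, h3⟩
    rw [Set.mem_iUnion]
    have h4 : 1 ≤ log t.1 / s := by rwa [le_div_iff₀ hs0, one_mul]
    obtain ⟨j, hj1, hj2⟩ := exists_nat_pow_near h4 (by norm_num : (1 : ℝ) < 2)
    refine ⟨j, t, h1, ?_, ?_, h3⟩
    · rwa [le_div_iff₀ hs0] at hj1
    · rw [div_lt_iff₀ hs0, pow_succ] at hj2
      linarith
  refine (measure_mono hsub).trans ((measure_iUnion_le _).trans ?_)
  have hj : ∀ j : ℕ, volume {u | ∃ t : Tr, Stat t ∧ 2 ^ j * s ≤ log t.1 ∧ log t.1 < 2 * (2 ^ j * s) ∧ u ∈ BadT a b t} ≤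
      ENNReal.ofReal ((1600 * log (2 * a) / s) * (1 / 2) ^ j) := by
    intro j
    have h2j : (1 : ℝ) ≤ 2 ^ j := one_le_pow₀ (by norm_num)
    have hs' : s ≤ 2 ^ j * s := by nlinarith
    refine (Bad_scale ha hab (by positivity) (hbig.trans hs') (haP.trans (Real.exp_le_exp.2 hs'))).trans ?_
    apply ENNReal.ofReal_le_ofReal
    apply le_of_eq
    rw [one_div, inv_pow]
    field_simp
    norm_num
  refine (ENNReal.tsum_le_tsum hj).trans ?_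
  rw [← ENNReal.ofReal_tsum_of_nonneg (fun j => by positivity) (summable_geometric_two.mul_left _),
    tsum_mul_left, tsum_geometric_two]
  apply ENNReal.ofReal_le_ofReal
  apply le_of_eq
  ring

end Pool.Agent.T6.H76.DP
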