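import Mathlib

set_option autoImplicit false

/-!
# Differences and products: marks of an integer

A mark of a natural number `y` (at the parameter `u`) is a triple `(P, q, ε)`, `P ≥ 3` odd, `q` odd,
`gcd(P, q) = 1`, `ε` rational, such that `q` and the height of `ε` are small powers of `P`, most of
`P` divides the numerator of `y - ε`, and `y` is very close to `2^k P / q` for some `k`.
-/

namespace Pool.Agent.T6.H76.DP

open Real

/-- triples `(P, q, ε)` -/
abbrev Tr := ℕ × ℕ × ℚ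

/-- the position `P / q` of a triple -/
def pos (t : Tr) : ℚ := (t.1 : ℚ) / (t.2.1 : ℚ)

/-- the height of a rational number -/
def ht (r : ℚ) : ℕ := max r.num.natAbs r.den

/-- the gcd of `P` and the numerator of `y - ε` -/
def gc (y : ℕ) (t : Tr) : ℕ := Nat.gcd t.1 ((y : ℚ) - t.2.2).num.natAbs

def Stat (t : Tr) : Prop := 3 ≤ t.1 ∧ Odd t.1 ∧ Odd t.2.1 ∧ Nat.Coprime t.1 t.2.1

/-- the conditions which are monotone in `u` -/
def Up (u : ℝ) (y : ℕ) (t : Tr) : Prop :=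
  64 * log t.2.1 ≤ u * log t.1 ∧ 64 * log (ht t.2.2) ≤ u * log t.1 ∧
    64 * (log t.1 - log (gc y t)) ≤ u * log t.1

/-- the condition which is antitone in `u` -/
def Dn (u : ℝ) (y : ℕ) (t : Tr) : Prop :=
  ∃ k : ℕ, 12 * u * log t.1 ≤ k * log 2 ∧
    |(t.2.1 : ℝ) * y - t.1 * 2 ^ k| ≤ 2 ^ k * t.1 * exp (-(12 * u * log t.1))

/-- the marks of `y` at the parameter `u` -/
def Mk (u : ℝ) (y : ℕ) : Set Tr := {t | Stat t ∧ Up u y t ∧ Dn u y t}

/-- the relaxed marks of `y` (it contains `Mk u y` for all `u ∈ [1, 2]`) -/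
def Rel (y : ℕ) : Set Tr := {t | Stat t ∧ Up (5 / 2) y t ∧ Dn (1 / 2) y t}

/-- shift of the label by an integer -/
def sh (z : ℤ) (t : Tr) : Tr := (t.1, t.2.1, t.2.2 + z)

/-- the odd part of `a` -/
def odd (a : ℕ) : ℕ := a / 2 ^ padicValNat 2 a

/-- the map on triples induced by multiplication by `a` -/
def mu (a : ℕ) (t : Tr) : Tr :=
  (odd a * t.1 / Nat.gcd (odd a) t.2.1, t.2.1 / Nat.gcd (odd a) t.2.1, (a : ℚ) * t.2.2)

/-- one step of the process with scale `s` -/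
def Step (s : ℚ) (M : Set Tr) (j i : Tr) : Prop :=
  i ∈ M ∧ pos i < pos j ∧ s * pos i / 2 ≤ |j.2.2 - i.2.2| ∧
    ∀ i' ∈ M, pos i' < pos j → s * pos i' / 2 ≤ |j.2.2 - i'.2.2| → pos i' ≤ pos i

def Last (M : Set Tr) (j : Tr) : Prop := j ∈ M ∧ ∀ i ∈ M, pos i ≤ pos j

/-- `j` is the last point of the process with scale `s` on `M` -/
def Final (s : ℚ) (M : Set Tr) (j : Tr) : Prop :=
  (∃ l, Last M l ∧ Relation.ReflTransGen (Step s M) l j) ∧
    ∀ i ∈ M, pos i < pos j → |j.2.2 - i.2.2| < s * pos i / 2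

/-- the set of parameters at which the product rule reads `A` from `y` -/
def EX (y A : ℕ) : Set ℝ :=
  {u | 1 ≤ u ∧ u ≤ 2 ∧ ∃ j, Final (2 ^ (padicValNat 2 y / 2)) (Mk u y) j ∧ j.1 = A}

/-- the set of parameters at which the difference rule reads `A` from `y` -/
def ED (y A : ℕ) : Set ℝ :=
  {u | 1 ≤ u ∧ u ≤ 2 ∧ ∃ j, Final 1 (Mk u y) j ∧ round (-j.2.2) = (A : ℤ)}

end Pool.Agent.T6.H76.DP
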