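import Pool.Agent.T6.H76.DP.Main
import Pool.Agent.T6.H76.DP.Col
import Pool.Agent.T6.H76.DP.Lead
import Pool.Agent.Results.MP_741d9e_co.TwoAdicBounded

set_option autoImplicit false

namespace Pool.Agent.T6.H76.DP

/-- There is a finite colouring without monochromatic differences and products. -/
theorem no_ramsey :
    ¬ (∀ (k : ℕ) (c : ℕ → Fin k),
      ∃ (a : ℕ → ℕ) (i : Fin k),
        StrictMono a ∧ 0 < a 0 ∧
        ∀ n m : ℕ, n < m → c (a m - a n) = i ∧ c (a n * a m) = i) := by
  intro H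
  obtain ⟨r1, c1, h1⟩ := Pool.Agent.Results.MP_741d9e_co.TwoAdicBounded.result 0
  obtain ⟨r2, c2, h2⟩ := Pool.Agent.T6.H76.DP.lead
  obtain ⟨X, D, hX, hD⟩ := Pool.Agent.T6.H76.DP.lists
  set g : Fin 2 → ℕ → ℕ := fun i x =>
    x / (2 ^ (padicValNat 2 x / 2) * X i x) - 2 ^ (padicValNat 2 x / 2) * X i x with hg
  set f : Fin 2 → ℕ → ℕ := fun i d => if 0 < D i d then D i d * (d + D i d) else d + 1 with hf
  have hfgt : ∀ i d, d < f i d := by
    intro i d
    simp only [hf]
    split_ifs with h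
    · nlinarith
    · omega
  have hcg := fun i => Pool.Agent.T6.H76.DP.col_down (g i)
  have hcf := fun i => Pool.Agent.T6.H76.DP.col_up (f i) (hfgt i)
  choose cg hcg using hcg
  choose cf hcf using hcf
  set c : ℕ → Fin r1 × Fin r2 × (Fin 2 → Fin 2) × (Fin 2 → Fin 2) :=
    fun x => (c1 x, c2 x, fun i => cg i x, fun i => cf i x) with hc
  obtain ⟨a, i, ha, ha0, hai⟩ := H _ (fun x => Fintype.equivFin _ (c x))
  have hpos : ∀ n, 0 < a n := fun n => lt_of_lt_of_le ha0 (ha.monotone (Nat.zero_le n))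
  have heq : ∀ n m, n < m → c (a m - a n) = c (a n * a m) := by
    intro n m hnm
    have h := hai n m hnm
    exact (Fintype.equivFin _).injective (h.1.trans h.2.symm)
  have heq1 : ∀ n m, n < m → c1 (a m - a n) = c1 (a n * a m) := fun n m hnm =>
    congrArg Prod.fst (heq n m hnm)
  have heq2 : ∀ n m, n < m → c2 (a m - a n) = c2 (a n * a m) := fun n m hnm =>
    congrArg (fun p => p.2.1) (heq n m hnm)
  have heq3 : ∀ i n m, n < m → cg i (a m - a n) = cg i (a n * a m) := fun i n m hnm =>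
    congrArg (fun p => p.2.2.1 i) (heq n m hnm)
  have heq4 : ∀ i n m, n < m → cf i (a m - a n) = cf i (a n * a m) := fun i n m hnm =>
    congrArg (fun p => p.2.2.2 i) (heq n m hnm)
  obtain ⟨⟨M, hM⟩, _⟩ := h1 a ha hpos heq1
  -- a valuation which occurs infinitely often
  obtain ⟨V, hV⟩ : ∃ V, ∃ᶠ n in Filter.atTop, padicValNat 2 (a n) = V := by
    by_contra hcon
    push Not at hcon
    have h3 : ∀ᶠ n in Filter.atTop, ∀ V ∈ Finset.range (M + 1), padicValNat 2 (a n) ≠ V := by
      rw [Filter.eventually_all_finset]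
      intro V _
      exact hcon V
    obtain ⟨n, hn⟩ := h3.exists
    exact hn (padicValNat 2 (a n)) (Finset.mem_range.2 (Nat.lt_succ_of_le (hM n))) rfl
  have htop : Filter.Tendsto a Filter.atTop Filter.atTop := ha.tendsto_atTop
  obtain ⟨n, hn1, hn2⟩ := (hV.and_eventually (htop.eventually_ge_atTop (3 * 2 ^ V))).exists
  have hodd : 3 ≤ Pool.Agent.T6.H76.DP.odd (a n) := by
    have h3 := Pool.Agent.T6.H76.DP.odd_mul (a n)
    rw [hn1] at h3
    rw [← h3] at hn2
    exact Nat.le_of_mul_le_mul_right hn2 (by positivity)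
  obtain ⟨δ, hδ, B, hB⟩ := Pool.Agent.T6.H76.DP.main hodd
  obtain ⟨m, hm1, ⟨⟨k, hk⟩, hm2⟩, hm3⟩ := (hV.and_eventually (((h2 a ha hpos heq2 δ hδ).and
    (htop.eventually_ge_atTop B)).and (Filter.eventually_gt_atTop n))).exists
  have hab : a n < a m := ha hm3
  have hpn := hpos n
  have hpm := hpos m
  have hval : padicValNat 2 (a n * a m) / 2 = V := by
    rw [padicValNat.mul (by omega) (by omega), hn1, hm1]
    omega
  rcases hB (a m) k hm2 (hm1.trans hn1.symm) hk with h | h
  · obtain ⟨i, hi⟩ := hX _ _ h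
    have h4 : 2 ^ (padicValNat 2 (a n * a m) / 2) * X i (a n * a m) = a n := by
      have h5 := Pool.Agent.T6.H76.DP.odd_mul (a n)
      rw [hn1] at h5
      rw [hval, hi, mul_comm, h5]
    have h6 : g i (a n * a m) = a m - a n := by
      simp only [hg]
      rw [h4, Nat.mul_div_cancel_left _ hpn]
    have h7 : g i (a n * a m) < a n * a m := by
      rw [h6]
      have : a m ≤ a n * a m := Nat.le_mul_of_pos_left _ hpn
      omega
    have h8 := hcg i (a n * a m) h7
    rw [h6] at h8
    exact h8 (heq3 i n m hm3)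
  · obtain ⟨i, hi⟩ := hD _ _ h
    have h6 : f i (a m - a n) = a n * a m := by
      simp only [hf]
      rw [hi, if_pos hpn, Nat.sub_add_cancel hab.le]
    have h8 := hcf i (a m - a n)
    rw [h6] at h8
    exact h8 (heq4 i n m hm3).symm

end Pool.Agent.T6.H76.DP
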