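import Pool.Agent.T6.H76.DP.Defs

set_option autoImplicit false

/-!
# The process on a finite set of marks
-/

namespace Pool.Agent.T6.H76.DP

lemma Step_mem {s : ℚ} {M : Set Tr} {j i : Tr} (h : Step s M j i) : i ∈ M := h.1

lemma path_mem {s : ℚ} {M : Set Tr} {l j : Tr} (hl : l ∈ M)
    (h : Relation.ReflTransGen (Step s M) l j) : j ∈ M := by
  cases h with
  | refl => exact hl
  | tail _ h => exact h.1

lemma Step_unique {s : ℚ} {M : Set Tr} (hinj : ∀ t ∈ M, ∀ t' ∈ M, pos t = pos t' → t = t')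
    {j i i' : Tr} (h : Step s M j i) (h' : Step s M j i') : i = i' :=
  hinj i h.1 i' h'.1 (le_antisymm (h'.2.2.2 i h.1 h.2.1 h.2.2.1) (h.2.2.2 i' h'.1 h'.2.1 h'.2.2.1))

theorem Final_unique {s : ℚ} {M : Set Tr} (hinj : ∀ t ∈ M, ∀ t' ∈ M, pos t = pos t' → t = t')
    {j j' : Tr} (h : Final s M j) (h' : Final s M j') : j = j' := by
  obtain ⟨⟨l, hl, hp⟩, hf⟩ := h
  obtain ⟨⟨l', hl', hp'⟩, hf'⟩ := h'
  have hll : l = l' := hinj l hl.1 l' hl'.1 (le_antisymm (hl'.2 l hl.1) (hl.2 l' hl'.1))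
  subst hll
  have key : ∀ {x y z : Tr}, Relation.ReflTransGen (Step s M) x y →
      Relation.ReflTransGen (Step s M) x z → (∀ i, ¬ Step s M y i) → (∀ i, ¬ Step s M z i) →
      y = z := by
    intro x y z h
    induction h using Relation.ReflTransGen.head_induction_on with
    | refl =>
      intro h2 h3 _
      cases h2 using Relation.ReflTransGen.head_induction_on with
      | refl => rfl
      | head h4 _ => exact absurd h4 (h3 _)
    | head h4 h5 ih =>
      intro h2 h3 h6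
      cases h2 using Relation.ReflTransGen.head_induction_on with
      | refl => exact absurd h4 (h6 _)
      | head h7 h8 =>
        have := Step_unique hinj h4 h7
        subst this
        exact ih h8 h3 h6
  have no : ∀ {y : Tr}, (∀ i ∈ M, pos i < pos y → |y.2.2 - i.2.2| < s * pos i / 2) →
      ∀ i, ¬ Step s M y i := by
    intro y hy i hi
    exact absurd (hy i hi.1 hi.2.1) (not_lt.2 hi.2.2.1)
  exact key hp hp' (no hf) (no hf')

theorem Final_exists {s : ℚ} {M : Set Tr} (hfin : M.Finite) (hne : M.Nonempty) :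
    ∃ j, Final s M j := by
  obtain ⟨l, hl, hl'⟩ := hfin.exists_maximalFor pos M hne
  have hlast : Last M l := ⟨hl, fun i hi => by
    by_contra hcon
    exact hcon (hl' hi (le_of_lt (not_le.1 hcon)))⟩
  set R : Set Tr := {j | Relation.ReflTransGen (Step s M) l j} with hR
  have hRM : R ⊆ M := fun j hj => path_mem hl hj
  obtain ⟨j, hj, hj'⟩ := (hfin.subset hRM).exists_minimalFor pos R ⟨l, Relation.ReflTransGen.refl⟩
  refine ⟨j, ⟨l, hlast, hj⟩, ?_⟩
  intro i hi hij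
  by_contra hcon
  rw [not_lt] at hcon
  set S : Set Tr := {i | i ∈ M ∧ pos i < pos j ∧ s * pos i / 2 ≤ |j.2.2 - i.2.2|} with hS
  have hSM : S ⊆ M := fun t ht => ht.1
  obtain ⟨k, hk, hk'⟩ := (hfin.subset hSM).exists_maximalFor pos S ⟨i, hi, hij, hcon⟩
  have hstep : Step s M j k := by
    refine ⟨hk.1, hk.2.1, hk.2.2, ?_⟩
    intro i' h1 h2 h3
    by_contra h4
    exact h4 (hk' ⟨h1, h2, h3⟩ (le_of_lt (not_le.1 h4)))
  have hkR : k ∈ R := Relation.ReflTransGen.tail hj hstep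
  exact absurd hk.2.1 (not_lt.2 (hj' hkR hk.2.1.le))

lemma pos_sh (z : ℤ) (t : Tr) : pos (sh z t) = pos t := rfl

theorem Final_sh {M M' : Set Tr} {z : ℤ} (hM : M' = sh z '' M) {j : Tr} (h : Final 1 M j) :
    Final 1 M' (sh z j) := by
  subst hM
  obtain ⟨⟨l, hl, hp⟩, hf⟩ := h
  have hlab : ∀ j i : Tr, (sh z j).2.2 - (sh z i).2.2 = j.2.2 - i.2.2 := by
    intro j i
    simp only [sh]
    ring
  have hstep : ∀ j i : Tr, Step 1 M j i → Step 1 (sh z '' M) (sh z j) (sh z i) := by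
    intro j i hs
    refine ⟨⟨i, hs.1, rfl⟩, by simpa [pos_sh] using hs.2.1, ?_, ?_⟩
    · rw [hlab, pos_sh]; exact hs.2.2.1
    · rintro _ ⟨i', hi', rfl⟩ h1 h2
      rw [hlab, pos_sh] at h2
      rw [pos_sh, pos_sh] at h1
      rw [pos_sh, pos_sh]
      exact hs.2.2.2 i' hi' h1 h2
  refine ⟨⟨sh z l, ⟨⟨l, hl.1, rfl⟩, ?_⟩, ?_⟩, ?_⟩
  · rintro _ ⟨i, hi, rfl⟩
    exact hl.2 i hi
  · exact Relation.ReflTransGen.lift (sh z) hstep _ _ hp
  · rintro _ ⟨i, hi, rfl⟩ h1
    rw [hlab, pos_sh]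
    exact hf i hi h1

/-- the process on the marks of the product `x = a b`; `hposmu` is `pos_mu` -/
theorem Final_mu_aux {a : ℕ} (ha : 1 ≤ a) {M M' : Set Tr}
    (hposmu : ∀ t ∈ M, pos (mu a t) = odd a * pos t)
    (hpos : ∀ t ∈ M, 1 < pos t)
    (h1 : ∀ t ∈ M, mu a t ∈ M') (h2 : ∀ t ∈ M', (odd a : ℚ) < pos t → ∃ t' ∈ M, mu a t' = t)
    (h3 : ((odd a, 1, 0) : Tr) ∈ M') (h4 : ∀ t ∈ M', |t.2.2| < pos t / 2)
    (h : M = ∅ ∨ ∃ j, Final 1 M j ∧ 1 / 2 ≤ |j.2.2|) :
    Final (2 ^ padicValNat 2 a) M' (odd a, 1, 0) := by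
  have hodd : odd a * 2 ^ padicValNat 2 a = a := Nat.div_mul_cancel pow_padicValNat_dvd
  have hodd1 : 0 < odd a := by
    rcases Nat.eq_zero_or_pos (odd a) with h0 | h0
    · rw [h0] at hodd; omega
    · exact h0
  have hoddq : (0 : ℚ) < odd a := by exact_mod_cast hodd1
  have haq : (0 : ℚ) < a := by exact_mod_cast ha
  have hoddQ : (odd a : ℚ) * 2 ^ padicValNat 2 a = a := by exact_mod_cast hodd
  have hs1 : (1 : ℚ) ≤ 2 ^ padicValNat 2 a := one_le_pow₀ (by norm_num)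
  have hp0 : pos (odd a, 1, 0) = odd a := by simp [pos]
  have hposmu' : ∀ t ∈ M, (odd a : ℚ) < pos (mu a t) := by
    intro t ht
    rw [hposmu t ht]
    have := hpos t ht
    nlinarith
  -- the final inequality
  have hfin : ∀ i ∈ M', pos i < pos ((odd a, 1, 0) : Tr) →
      |((odd a, 1, 0) : Tr).2.2 - i.2.2| < 2 ^ padicValNat 2 a * pos i / 2 := by
    intro i hi _
    have h5 := h4 i hi
    have h6 : 0 < pos i := by
      have := abs_nonneg i.2.2
      linarith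
    simp only [zero_sub, abs_neg]
    nlinarith
  rcases h with h | ⟨j, hj, hj'⟩
  · refine ⟨⟨(odd a, 1, 0), ⟨h3, ?_⟩, Relation.ReflTransGen.refl⟩, hfin⟩
    intro i hi
    rw [hp0]
    by_contra hcon
    obtain ⟨t', ht', _⟩ := h2 i hi (not_le.1 hcon)
    rw [h] at ht'
    exact ht'
  · obtain ⟨⟨l, hl, hp⟩, hf⟩ := hj
    have hlab : ∀ j i : Tr, (mu a j).2.2 - (mu a i).2.2 = a * (j.2.2 - i.2.2) := by
      intro j i
      simp only [mu]
      ring
    have hthr : ∀ i ∈ M, (2 ^ padicValNat 2 a * pos (mu a i) / 2 : ℚ) = a * (1 * pos i / 2) := by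
      intro i hi
      rw [hposmu i hi, ← hoddQ]
      ring
    have hcmp : ∀ j, ∀ i ∈ M, 2 ^ padicValNat 2 a * pos (mu a i) / 2 ≤ |(mu a j).2.2 - (mu a i).2.2| ↔
        1 * pos i / 2 ≤ |j.2.2 - i.2.2| := by
      intro j i hi
      rw [hthr i hi, hlab, abs_mul, abs_of_pos haq, mul_le_mul_iff_right₀ haq]
    have hlt : ∀ j ∈ M, ∀ i ∈ M, pos (mu a i) < pos (mu a j) ↔ pos i < pos j := by
      intro j hj i hi
      rw [hposmu i hi, hposmu j hj, mul_lt_mul_iff_right₀ hoddq]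
    have hle : ∀ j ∈ M, ∀ i ∈ M, pos (mu a i) ≤ pos (mu a j) ↔ pos i ≤ pos j := by
      intro j hj i hi
      rw [hposmu i hi, hposmu j hj, mul_le_mul_iff_right₀ hoddq]
    have hstep : ∀ j ∈ M, ∀ i, Step 1 M j i → Step (2 ^ padicValNat 2 a) M' (mu a j) (mu a i) := by
      intro j hj i hs
      refine ⟨h1 i hs.1, (hlt j hj i hs.1).2 hs.2.1, (hcmp j i hs.1).2 hs.2.2.1, ?_⟩
      intro i' hi' h5 h6
      rcases lt_or_ge (odd a : ℚ) (pos i') with h7 | h7
      · obtain ⟨t', ht', rfl⟩ := h2 i' hi' h7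
        rw [hle i hs.1 t' ht']
        exact hs.2.2.2 t' ht' ((hlt j hj t' ht').1 h5) ((hcmp j t' ht').1 h6)
      · exact h7.trans (hposmu' i hs.1).le
    have hpath : Relation.ReflTransGen (Step (2 ^ padicValNat 2 a) M') (mu a l) (mu a j) := by
      have hjM : j ∈ M := path_mem hl.1 hp
      clear hf hj'
      induction hp with
      | refl => exact Relation.ReflTransGen.refl
      | tail h5 h6 ih => exact Relation.ReflTransGen.tail (ih (path_mem hl.1 h5)) (hstep _ (path_mem hl.1 h5) _ h6)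
    have hjM : j ∈ M := path_mem hl.1 hp
    have hlast : Step (2 ^ padicValNat 2 a) M' (mu a j) (odd a, 1, 0) := by
      refine ⟨h3, by rw [hp0]; exact hposmu' j hjM, ?_, ?_⟩
      · rw [hp0]
        have : (mu a j).2.2 - ((odd a, 1, 0) : Tr).2.2 = a * j.2.2 := by simp [mu]
        rw [this, abs_mul, abs_of_pos haq, mul_comm (2 ^ padicValNat 2 a : ℚ), hoddQ]
        nlinarith
      · intro i' hi' h5 h6
        rw [hp0]
        by_contra hcon
        rw [not_le] at hcon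
        obtain ⟨t', ht', rfl⟩ := h2 i' hi' hcon
        have h7 := hf t' ht' ((hlt j hjM t' ht').1 h5)
        exact absurd ((hcmp j t' ht').1 h6) (not_le.2 h7)
    refine ⟨⟨mu a l, ⟨h1 l hl.1, ?_⟩, Relation.ReflTransGen.tail hpath hlast⟩, hfin⟩
    intro i hi
    rcases lt_or_ge (odd a : ℚ) (pos i) with h7 | h7
    · obtain ⟨t', ht', rfl⟩ := h2 i hi h7
      rw [hle l hl.1 t' ht']
      exact hl.2 t' ht'
    · exact h7.trans (hposmu' l hl.1).le

end Pool.Agent.T6.H76.DP
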