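import Pool.Agent.T6.H76.DP.Defs

set_option autoImplicit false

/-!
# Relaxed marks of an integer: they are few and sparse (helper63)
-/

namespace Pool.Agent.T6.H76.DP

open Real

/-! ### Natural number forms of the conditions -/

theorem pow_of_log {x P : ℕ} (hx : 1 ≤ x) (hP : 1 ≤ P)
    (h : 64 * log (x : ℝ) ≤ 5 / 2 * log (P : ℝ)) : x ^ 128 ≤ P ^ 5 := by
  have hx' : (0 : ℝ) < x := by exact_mod_cast hx
  have hP' : (0 : ℝ) < P := by exact_mod_cast hP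
  have h1 : log ((x : ℝ) ^ 128) ≤ log ((P : ℝ) ^ 5) := by
    rw [Real.log_pow, Real.log_pow]
    push_cast
    linarith
  have h2 : (x : ℝ) ^ 128 ≤ (P : ℝ) ^ 5 := by
    rwa [Real.log_le_log_iff (by positivity) (by positivity)] at h1
  exact_mod_cast h2

theorem le_of_pow {x P : ℕ} (hP : 1 ≤ P) (h : x ^ 128 ≤ P ^ 5) : x ≤ P := by
  have h1 : x ^ 128 ≤ P ^ 128 := h.trans (Nat.pow_le_pow_right hP (by norm_num))
  exact (Nat.pow_le_pow_iff_left (by norm_num)).mp h1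

theorem exp_six {P : ℕ} (hP : 1 ≤ P) : exp (-(6 * log (P : ℝ))) = ((P : ℝ) ^ 6)⁻¹ := by
  have hP' : (0 : ℝ) < P := by exact_mod_cast hP
  rw [Real.exp_neg]
  congr 1
  rw [show (6 : ℝ) * log (P : ℝ) = ((6 : ℕ) : ℝ) * log (P : ℝ) by norm_num, Real.exp_nat_mul,
    Real.exp_log hP']

/-- natural number form of a relaxed mark -/
structure RelN (y : ℕ) (t : Tr) : Prop where
  three : 3 ≤ t.1
  oddP : Odd t.1
  oddq : Odd t.2.1
  cop : Nat.Coprime t.1 t.2.1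
  q : t.2.1 ^ 128 ≤ t.1 ^ 5
  h : ht t.2.2 ^ 128 ≤ t.1 ^ 5
  g : (t.1 / gc y t) ^ 128 ≤ t.1 ^ 5
  k : ∃ k : ℕ, (t.1 : ℝ) ^ 6 ≤ 2 ^ k ∧
    |(t.2.1 : ℝ) * y - t.1 * 2 ^ k| ≤ 2 ^ k * t.1 * ((t.1 : ℝ) ^ 6)⁻¹

theorem one_le_ht (r : ℚ) : 1 ≤ ht r := le_max_of_le_right r.den_pos

theorem gc_dvd (y : ℕ) (t : Tr) : gc y t ∣ t.1 := Nat.gcd_dvd_left _ _

theorem relN {y : ℕ} {t : Tr} (h : t ∈ Rel y) : RelN y t := by
  obtain ⟨⟨h3, hPo, hqo, hc⟩, ⟨u1, u2, u3⟩, k, k1, k2⟩ := h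
  have hP1 : 1 ≤ t.1 := by omega
  have hPr : (0 : ℝ) < t.1 := by exact_mod_cast hP1
  have hq1 : 1 ≤ t.2.1 := hqo.pos
  have hg : 0 < gc y t := Nat.gcd_pos_of_pos_left _ (by omega)
  have hgr : (0 : ℝ) < gc y t := by exact_mod_cast hg
  have hd := gc_dvd y t
  refine ⟨h3, hPo, hqo, hc, pow_of_log hq1 hP1 (by linarith), pow_of_log (one_le_ht _) hP1
    (by linarith), ?_, k, ?_, ?_⟩
  · have h1 : 1 ≤ t.1 / gc y t := Nat.div_pos (Nat.le_of_dvd (by omega) hd) hg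
    refine pow_of_log h1 hP1 ?_
    rw [Nat.cast_div hd (by positivity), Real.log_div hPr.ne' hgr.ne']
    linarith
  · have h2 : log ((t.1 : ℝ) ^ 6) ≤ log ((2 : ℝ) ^ k) := by
      rw [Real.log_pow, Real.log_pow]
      push_cast
      linarith
    rwa [Real.log_le_log_iff (by positivity) (by positivity)] at h2
  · rw [← exp_six hP1]
    convert k2 using 4
    ring

theorem Mk_subset_Rel {u : ℝ} (h1 : 1 ≤ u) (h2 : u ≤ 2) (y : ℕ) : Mk u y ⊆ Rel y := by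
  rintro t ⟨hs, ⟨u1, u2, u3⟩, k, k1, k2⟩
  have h3 : 3 ≤ t.1 := hs.1
  have hL : 0 ≤ log (t.1 : ℝ) := Real.log_natCast_nonneg _
  have hm : u * log (t.1 : ℝ) ≤ 5 / 2 * log (t.1 : ℝ) := by
    apply mul_le_mul_of_nonneg_right _ hL
    linarith
  have hn : 12 * (1 / 2) * log (t.1 : ℝ) ≤ 12 * u * log (t.1 : ℝ) := by
    apply mul_le_mul_of_nonneg_right _ hL
    linarith
  refine ⟨hs, ⟨u1.trans hm, u2.trans hm, u3.trans hm⟩, k, hn.trans k1, k2.trans ?_⟩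
  apply mul_le_mul_of_nonneg_left _ (by positivity)
  apply Real.exp_le_exp.mpr
  linarith

theorem inv_six_le {P : ℕ} (hP : 3 ≤ P) : ((P : ℝ) ^ 6)⁻¹ ≤ 1 / 729 := by
  have h : (3 : ℝ) ≤ P := by exact_mod_cast hP
  have h2 : (3 : ℝ) ^ 6 ≤ (P : ℝ) ^ 6 := pow_le_pow_left₀ (by norm_num) h 6
  rw [one_div]
  apply inv_anti₀ (by norm_num)
  linarith

theorem Rel_finite (y : ℕ) : (Rel y).Finite := by
  have hfin : ((fun p : (ℕ × ℕ) × (ℤ × ℕ) => ((p.1.1, p.1.2, (p.2.1 : ℚ) / (p.2.2 : ℚ)) : Tr)) ''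
      (((Finset.Icc 0 (2 * y) ×ˢ Finset.Icc 0 (2 * y)) ×ˢ
        (Finset.Icc (-(2 * y : ℕ) : ℤ) (2 * y : ℕ) ×ˢ Finset.Icc 0 (2 * y)) :
        Finset ((ℕ × ℕ) × (ℤ × ℕ))) : Set ((ℕ × ℕ) × (ℤ × ℕ)))).Finite :=
    (Finset.finite_toSet _).image _
  refine hfin.subset ?_
  intro t hmem
  have hn := relN hmem
  obtain ⟨k, k1, k2⟩ := hn.k
  have h3 := hn.three
  have hP1 : 1 ≤ t.1 := by omega
  have hPr : (3 : ℝ) ≤ t.1 := by exact_mod_cast h3
  have hqP : t.2.1 ≤ t.1 := le_of_pow hP1 hn.q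
  have hqPr : (t.2.1 : ℝ) ≤ t.1 := by exact_mod_cast hqP
  have hy0 : (0 : ℝ) ≤ y := Nat.cast_nonneg _
  have hi := inv_six_le h3
  -- `2 ^ k ≤ 2 y`
  have hk : (2 : ℝ) ^ k ≤ 2 * y := by
    have a1 := (abs_le.mp k2).1
    have a2 : (t.2.1 : ℝ) * y ≤ t.1 * y := mul_le_mul_of_nonneg_right hqPr hy0
    have a3 : (2 : ℝ) ^ k * t.1 * ((t.1 : ℝ) ^ 6)⁻¹ ≤ 2 ^ k * t.1 * (1 / 729) :=
      mul_le_mul_of_nonneg_left hi (by positivity)
    have a4 : (t.1 : ℝ) * (2 ^ k * (728 / 729)) ≤ t.1 * y := by nlinarith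
    have a5 : (2 : ℝ) ^ k * (728 / 729) ≤ y := le_of_mul_le_mul_left a4 (by linarith)
    have a6 : (0 : ℝ) < 2 ^ k := by positivity
    linarith
  have hP6 : (t.1 : ℝ) ^ 6 ≤ 2 * y := k1.trans hk
  have hPy : t.1 ≤ 2 * y := by
    have b1 : (t.1 : ℝ) ≤ (t.1 : ℝ) ^ 6 := le_self_pow₀ (by linarith) (by norm_num)
    have b2 : (t.1 : ℝ) ≤ 2 * y := b1.trans hP6
    exact_mod_cast b2
  have hh : ht t.2.2 ≤ 2 * y := (le_of_pow hP1 hn.h).trans hPy
  have hnum : t.2.2.num.natAbs ≤ 2 * y := (le_max_left _ _).trans hh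
  have hden : t.2.2.den ≤ 2 * y := (le_max_right _ _).trans hh
  refine ⟨((t.1, t.2.1), (t.2.2.num, t.2.2.den)), ?_, ?_⟩
  · simp only [Finset.coe_product, Finset.coe_Icc, Set.mem_prod, Set.mem_Icc]
    refine ⟨⟨⟨Nat.zero_le _, hPy⟩, Nat.zero_le _, hqP.trans hPy⟩, ⟨?_, ?_⟩, Nat.zero_le _, hden⟩
    · omega
    · omega
  · simp only [Rat.num_div_den]

theorem num_sub (y : ℕ) (r : ℚ) : ((y : ℚ) - r).num = y * r.den - r.num := by
  have hden : (0 : ℤ) < r.den := by exact_mod_cast r.den_pos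
  have hc : Nat.Coprime ((y : ℤ) * r.den - r.num).natAbs (r.den : ℤ).natAbs := by
    have h0 : IsCoprime r.num (r.den : ℤ) := by
      rw [Int.isCoprime_iff_gcd_eq_one]
      exact r.reduced
    have h1 : IsCoprime ((y : ℤ) * r.den - r.num) (r.den : ℤ) := by
      have h2 : IsCoprime (-r.num + (y : ℤ) * r.den) (r.den : ℤ) := by
        have := (IsCoprime.neg_left h0).add_mul_right_left (y : ℤ)
        exact this
      convert h2 using 1
      ring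
    rw [Int.isCoprime_iff_gcd_eq_one] at h1
    exact h1
  have h3 := Rat.num_div_eq_of_coprime hden hc
  have h4 : (y : ℚ) - r = (((y : ℤ) * r.den - r.num : ℤ) : ℚ) / ((r.den : ℤ) : ℚ) := by
    have h5 : (r.den : ℚ) ≠ 0 := by exact_mod_cast r.den_ne_zero
    rw [eq_div_iff (by exact_mod_cast r.den_ne_zero)]
    push_cast
    rw [sub_mul]
    congr 1
    exact (Rat.mul_den_eq_num r)
  rw [h4, h3]

theorem Rel_label {y : ℕ} {t t' : Tr} (h : t ∈ Rel y) (h' : t' ∈ Rel y) (h1 : t.1 = t'.1)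
    (h2 : t.2.1 = t'.2.1) : t = t' := by
  have hn := relN h
  have hn' := relN h'
  have h3 := hn.three
  obtain ⟨P, q, r⟩ := t
  obtain ⟨P', q', r'⟩ := t'
  simp only at h1 h2 h3
  subst h1 h2
  have hh := hn.h
  have hg := hn.g
  have hh' := hn'.h
  have hg' := hn'.g
  simp only at hh hg hh' hg'
  suffices hr : r = r' by rw [hr]
  by_contra hne
  set G := gc y (P, q, r) with hG
  set G' := gc y (P, q, r') with hG'
  have hGP : G ∣ P := gc_dvd y (P, q, r)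
  have hGP' : G' ∣ P := gc_dvd y (P, q, r')
  have hP0 : 0 < P := by omega
  have hG0 : 0 < G := Nat.pos_of_dvd_of_pos hGP hP0
  have hG0' : 0 < G' := Nat.pos_of_dvd_of_pos hGP' hP0
  -- the cross difference
  have hcross : r.num * r'.den - r'.num * r.den ≠ 0 := by
    intro h0
    apply hne
    have : r.num * r'.den = r'.num * r.den := by linarith
    exact (Rat.eq_iff_mul_eq_mul).mpr this
  have hd1 : (G : ℤ) ∣ (y : ℤ) * r.den - r.num := by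
    have : G ∣ ((y : ℚ) - r).num.natAbs := Nat.gcd_dvd_right _ _
    rw [num_sub] at this
    exact Int.natCast_dvd.mpr this
  have hd1' : (G' : ℤ) ∣ (y : ℤ) * r'.den - r'.num := by
    have : G' ∣ ((y : ℚ) - r').num.natAbs := Nat.gcd_dvd_right _ _
    rw [num_sub] at this
    exact Int.natCast_dvd.mpr this
  have hgd : ((Nat.gcd G G' : ℕ) : ℤ) ∣ r.num * r'.den - r'.num * r.den := by
    have a1 : ((Nat.gcd G G' : ℕ) : ℤ) ∣ (y : ℤ) * r.den - r.num :=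
      (Int.natCast_dvd_natCast.mpr (Nat.gcd_dvd_left _ _)).trans hd1
    have a2 : ((Nat.gcd G G' : ℕ) : ℤ) ∣ (y : ℤ) * r'.den - r'.num :=
      (Int.natCast_dvd_natCast.mpr (Nat.gcd_dvd_right _ _)).trans hd1'
    have a3 := dvd_sub (a2.mul_left (r.den : ℤ)) (a1.mul_left (r'.den : ℤ))
    have e : (r.den : ℤ) * ((y : ℤ) * r'.den - r'.num) - r'.den * ((y : ℤ) * r.den - r.num) =
        r.num * r'.den - r'.num * r.den := by ring
    rwa [e] at a3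
  have hle : Nat.gcd G G' ≤ (r.num * r'.den - r'.num * r.den).natAbs :=
    Nat.le_of_dvd (Int.natAbs_pos.mpr hcross) (Int.natCast_dvd.mp hgd)
  have hab : (r.num * r'.den - r'.num * r.den).natAbs ≤ 2 * (ht r * ht r') := by
    have b1 : r.num.natAbs * r'.den ≤ ht r * ht r' :=
      Nat.mul_le_mul (le_max_left _ _) (le_max_right _ _)
    have b2 : r'.num.natAbs * r.den ≤ ht r * ht r' := by
      rw [mul_comm (ht r)]
      exact Nat.mul_le_mul (le_max_left _ _) (le_max_right _ _)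
    have b3 := Int.natAbs_sub_le (r.num * r'.den) (r'.num * r.den)
    rw [Int.natAbs_mul, Int.natAbs_mul, Int.natAbs_natCast, Int.natAbs_natCast] at b3
    omega
  -- `P ≤ gcd * H * H'`
  have hmain : P ≤ Nat.gcd G G' * ((P / G) * (P / G')) := by
    have c1 : Nat.lcm G G' ∣ P := Nat.lcm_dvd hGP hGP'
    have c2 : Nat.lcm G G' ≤ P := Nat.le_of_dvd hP0 c1
    have c3 : Nat.gcd G G' * Nat.lcm G G' = G * G' := Nat.gcd_mul_lcm G G'
    have c4 : G * (P / G) = P := Nat.mul_div_cancel' hGP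
    have c5 : G' * (P / G') = P := Nat.mul_div_cancel' hGP'
    have c6 : P * P ≤ P * (Nat.gcd G G' * ((P / G) * (P / G'))) := by
      calc P * P = (G * (P / G)) * (G' * (P / G')) := by rw [c4, c5]
        _ = (G * G') * ((P / G) * (P / G')) := by ring
        _ = (Nat.gcd G G' * Nat.lcm G G') * ((P / G) * (P / G')) := by rw [c3]
        _ ≤ (Nat.gcd G G' * P) * ((P / G) * (P / G')) :=
          Nat.mul_le_mul_right _ (Nat.mul_le_mul_left _ c2)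
        _ = P * (Nat.gcd G G' * ((P / G) * (P / G'))) := by ring
    exact Nat.le_of_mul_le_mul_left c6 hP0
  have hfin : P ≤ 2 * (ht r * ht r') * ((P / G) * (P / G')) :=
    hmain.trans (Nat.mul_le_mul_right _ (hle.trans hab))
  have hpow : P ^ 128 ≤ 2 ^ 128 * P ^ 20 := by
    calc P ^ 128 ≤ (2 * (ht r * ht r') * ((P / G) * (P / G'))) ^ 128 :=
          Nat.pow_le_pow_left hfin _
      _ = 2 ^ 128 * ((ht r ^ 128 * ht r' ^ 128) * ((P / G) ^ 128 * (P / G') ^ 128)) := by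
          rw [mul_pow, mul_pow, mul_pow, mul_pow]
          ring
      _ ≤ 2 ^ 128 * ((P ^ 5 * P ^ 5) * (P ^ 5 * P ^ 5)) :=
          Nat.mul_le_mul_left _ (Nat.mul_le_mul (Nat.mul_le_mul hh hh') (Nat.mul_le_mul hg hg'))
      _ = 2 ^ 128 * P ^ 20 := by ring
  have h108 : P ^ 108 ≤ 2 ^ 128 := by
    have e1 : P ^ 20 * P ^ 108 ≤ P ^ 20 * 2 ^ 128 := by
      rw [← pow_add]
      calc P ^ (20 + 108) = P ^ 128 := by norm_num
        _ ≤ 2 ^ 128 * P ^ 20 := hpow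
        _ = P ^ 20 * 2 ^ 128 := mul_comm _ _
    exact Nat.le_of_mul_le_mul_left e1 (by positivity)
  have h3p : 3 ^ 108 ≤ P ^ 108 := Nat.pow_le_pow_left h3 _
  have : (3 : ℕ) ^ 108 ≤ 2 ^ 128 := h3p.trans h108
  norm_num at this

/-- odd parts: if `a 2^k = b 2^l` with `a`, `b` odd, then `k = l` and `a = b` -/
theorem odd_parts {a b k l : ℕ} (ha : Odd a) (hb : Odd b) (h : a * 2 ^ k = b * 2 ^ l) :
    k = l ∧ a = b := by
  have key : ∀ {a b k l : ℕ}, Odd a → Odd b → a * 2 ^ k = b * 2 ^ l → l ≤ k := by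
    intro a b k l ha hb h
    by_contra hlt
    push Not at hlt
    obtain ⟨m, rfl⟩ := Nat.exists_eq_add_of_lt hlt
    have h1 : a * 2 ^ k = (b * 2 ^ (m + 1)) * 2 ^ k := by
      rw [h]
      ring
    have h2 : a = b * 2 ^ (m + 1) := Nat.eq_of_mul_eq_mul_right (by positivity) h1
    have h3 : Even a := by
      rw [h2, pow_succ]
      exact ⟨b * 2 ^ m, by ring⟩
    exact (Nat.not_even_iff_odd.mpr ha) h3
  have hkl : k = l := le_antisymm (key hb ha h.symm) (key ha hb h)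
  refine ⟨hkl, ?_⟩
  subst hkl
  exact Nat.eq_of_mul_eq_mul_right (by positivity) h

/-- if `a 2^k ≠ b 2^l` (naturals) and `k ≤ l` then they differ by at least `2 ^ k` -/
theorem diff_ge {a b k l : ℕ} (hkl : k ≤ l) (h : a * 2 ^ k ≠ b * 2 ^ l) :
    (2 : ℝ) ^ k ≤ |(a : ℝ) * 2 ^ k - b * 2 ^ l| := by
  obtain ⟨m, rfl⟩ := Nat.exists_eq_add_of_le hkl
  have h1 : ((a : ℤ) - b * 2 ^ m) ≠ 0 := by
    intro h0
    apply h
    have : (a : ℤ) = b * 2 ^ m := by linarith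
    have h2 : a = b * 2 ^ m := by exact_mod_cast this
    rw [h2]
    ring
  have h2 : (1 : ℤ) ≤ |(a : ℤ) - b * 2 ^ m| := Int.one_le_abs h1
  have h3 : (1 : ℝ) ≤ |(a : ℝ) - b * 2 ^ m| := by exact_mod_cast h2
  have h4 : (a : ℝ) * 2 ^ k - b * 2 ^ (k + m) = ((a : ℝ) - b * 2 ^ m) * 2 ^ k := by ring
  rw [h4, abs_mul, abs_of_pos (by positivity : (0 : ℝ) < 2 ^ k)]
  nlinarith [(by positivity : (0 : ℝ) < 2 ^ k)]

/-- the analytic core of the sparseness -/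
theorem sparse_core {P₁ P₂ q₁ q₂ k₁ k₂ : ℕ} {y : ℝ} (h3 : 3 ≤ P₁) (hle : P₁ ≤ P₂)
    (hq₁ : 1 ≤ q₁) (hq₂ : 1 ≤ q₂) (hq1 : q₁ ≤ P₁) (hq2 : q₂ ≤ P₂)
    (h1 : |(q₁ : ℝ) * y - P₁ * 2 ^ k₁| ≤ 2 ^ k₁ * P₁ * ((P₁ : ℝ) ^ 6)⁻¹)
    (h2 : |(q₂ : ℝ) * y - P₂ * 2 ^ k₂| ≤ 2 ^ k₂ * P₂ * ((P₂ : ℝ) ^ 6)⁻¹)
    (hne : (q₂ * P₁) * 2 ^ k₁ ≠ (q₁ * P₂) * 2 ^ k₂) : P₁ ^ 4 ≤ P₂ := by
  have hP₁ : (3 : ℝ) ≤ P₁ := by exact_mod_cast h3
  have hP : (P₁ : ℝ) ≤ P₂ := by exact_mod_cast hle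
  have hP₂ : (3 : ℝ) ≤ P₂ := hP₁.trans hP
  have hq₁r : (1 : ℝ) ≤ q₁ := by exact_mod_cast hq₁
  have hq₂r : (1 : ℝ) ≤ q₂ := by exact_mod_cast hq₂
  have hq1r : (q₁ : ℝ) ≤ P₁ := by exact_mod_cast hq1
  have hq2r : (q₂ : ℝ) ≤ P₂ := by exact_mod_cast hq2
  have hi₁ := inv_six_le h3
  have hi₂ := inv_six_le (h3.trans hle)
  set A : ℝ := (2 : ℝ) ^ k₁ with hA
  set B : ℝ := (2 : ℝ) ^ k₂ with hB
  have hA0 : 0 < A := by positivity
  have hB0 : 0 < B := by positivity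
  set x₁ : ℝ := ((P₁ : ℝ) ^ 6)⁻¹ with hx₁
  set x₂ : ℝ := ((P₂ : ℝ) ^ 6)⁻¹ with hx₂
  have hx₁0 : 0 < x₁ := by positivity
  have hx₂0 : 0 < x₂ := by positivity
  have hx1 : x₁ * (P₁ : ℝ) ^ 6 = 1 := inv_mul_cancel₀ (by positivity)
  have hx2 : x₂ * (P₂ : ℝ) ^ 6 = 1 := inv_mul_cancel₀ (by positivity)
  have hx21 : x₂ ≤ x₁ := by
    apply inv_anti₀ (by positivity)
    exact pow_le_pow_left₀ (by positivity) hP 6
  obtain ⟨l1, u1⟩ := abs_le.mp h1
  obtain ⟨l2, u2⟩ := abs_le.mp h2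
  -- sizes of the two products
  have hU : |((q₂ * P₁ : ℕ) : ℝ) * A - ((q₁ * P₂ : ℕ) : ℝ) * B| ≤
      q₂ * (A * P₁ * x₁) + q₁ * (B * P₂ * x₂) := by
    push_cast
    rw [abs_le]
    constructor
    · nlinarith [mul_le_mul_of_nonneg_left u1 (by linarith : (0 : ℝ) ≤ q₂),
        mul_le_mul_of_nonneg_left l1 (by linarith : (0 : ℝ) ≤ q₂),
        mul_le_mul_of_nonneg_left u2 (by linarith : (0 : ℝ) ≤ q₁),
        mul_le_mul_of_nonneg_left l2 (by linarith : (0 : ℝ) ≤ q₁)]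
    · nlinarith [mul_le_mul_of_nonneg_left u1 (by linarith : (0 : ℝ) ≤ q₂),
        mul_le_mul_of_nonneg_left l1 (by linarith : (0 : ℝ) ≤ q₂),
        mul_le_mul_of_nonneg_left u2 (by linarith : (0 : ℝ) ≤ q₁),
        mul_le_mul_of_nonneg_left l2 (by linarith : (0 : ℝ) ≤ q₁)]
  -- both products are comparable
  have hV := abs_le.mp hU
  push_cast at hV
  have e1 : q₂ * (A * P₁ * x₁) ≤ (q₂ * P₁ * A) * (1 / 729) := by
    have := mul_le_mul_of_nonneg_left hi₁ (by positivity : (0 : ℝ) ≤ q₂ * P₁ * A)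
    linarith
  have e2 : q₁ * (B * P₂ * x₂) ≤ (q₁ * P₂ * B) * (1 / 729) := by
    have := mul_le_mul_of_nonneg_left hi₂ (by positivity : (0 : ℝ) ≤ q₁ * P₂ * B)
    linarith
  have c1 : (q₁ : ℝ) * P₂ * B ≤ 2 * (q₂ * P₁ * A) := by
    have : (0 : ℝ) < q₁ * P₂ * B := by positivity
    have : (0 : ℝ) < q₂ * P₁ * A := by positivity
    linarith [hV.1]
  have c2 : (q₂ : ℝ) * P₁ * A ≤ 2 * (q₁ * P₂ * B) := by
    have : (0 : ℝ) < q₁ * P₂ * B := by positivity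
    have : (0 : ℝ) < q₂ * P₁ * A := by positivity
    linarith [hV.2]
  rcases le_total k₁ k₂ with hk | hk
  · -- `k₁ ≤ k₂`
    have hd := diff_ge hk hne
    rw [← hA, ← hB] at hd
    have hd2 := hd.trans hU
    -- `q₁ (B P₂ x₂) ≤ 2 q₂ P₁ A x₁`
    have d1 : (q₁ : ℝ) * (B * P₂ * x₂) ≤ 2 * (q₂ * P₁ * A) * x₁ := by
      have := mul_le_mul c1 hx21 hx₂0.le (by positivity)
      linarith
    have d2 : A ≤ 3 * (q₂ * P₁ * x₁) * A := by
      calc A ≤ q₂ * (A * P₁ * x₁) + q₁ * (B * P₂ * x₂) := hd2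
        _ ≤ q₂ * (A * P₁ * x₁) + 2 * (q₂ * P₁ * A) * x₁ := by linarith
        _ = 3 * (q₂ * P₁ * x₁) * A := by ring
    have d3 : 1 ≤ 3 * (q₂ * P₁ * x₁) := by
      by_contra hcon
      push Not at hcon
      have := mul_lt_mul_of_pos_right hcon hA0
      linarith
    have d4 : (P₁ : ℝ) ^ 6 ≤ 3 * q₂ * P₁ := by
      have := mul_le_mul_of_nonneg_right d3 (by positivity : (0 : ℝ) ≤ (P₁ : ℝ) ^ 6)
      calc (P₁ : ℝ) ^ 6 = 1 * (P₁ : ℝ) ^ 6 := by ring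
        _ ≤ 3 * (q₂ * P₁ * x₁) * (P₁ : ℝ) ^ 6 := this
        _ = 3 * q₂ * P₁ * (x₁ * (P₁ : ℝ) ^ 6) := by ring
        _ = 3 * q₂ * P₁ := by rw [hx1, mul_one]
    have d5 : P₁ ^ 6 ≤ 3 * q₂ * P₁ := by exact_mod_cast d4
    have d6 : P₁ ^ 2 * P₁ ^ 4 ≤ P₁ ^ 2 * P₂ := by
      calc P₁ ^ 2 * P₁ ^ 4 = P₁ ^ 6 := by ring
        _ ≤ 3 * q₂ * P₁ := d5
        _ ≤ P₁ * P₂ * P₁ := Nat.mul_le_mul_right _ (Nat.mul_le_mul h3 hq2)
        _ = P₁ ^ 2 * P₂ := by ring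
    exact Nat.le_of_mul_le_mul_left d6 (by positivity)
  · -- `k₂ ≤ k₁`
    have hd := diff_ge hk (Ne.symm hne)
    rw [← hA, ← hB, abs_sub_comm] at hd
    have hd2 := hd.trans hU
    have d1 : (q₂ : ℝ) * (A * P₁ * x₁) ≤ 2 * (q₁ * P₂ * B) * x₁ := by
      have := mul_le_mul_of_nonneg_right c2 hx₁0.le
      linarith
    have d1' : (q₁ : ℝ) * (B * P₂ * x₂) ≤ (q₁ * P₂ * B) * x₁ := by
      have := mul_le_mul_of_nonneg_left hx21 (by positivity : (0 : ℝ) ≤ q₁ * P₂ * B)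
      linarith
    have d2 : B ≤ 3 * (q₁ * P₂ * x₁) * B := by
      calc B ≤ q₂ * (A * P₁ * x₁) + q₁ * (B * P₂ * x₂) := hd2
        _ ≤ 2 * (q₁ * P₂ * B) * x₁ + (q₁ * P₂ * B) * x₁ := by linarith
        _ = 3 * (q₁ * P₂ * x₁) * B := by ring
    have d3 : 1 ≤ 3 * (q₁ * P₂ * x₁) := by
      by_contra hcon
      push Not at hcon
      have := mul_lt_mul_of_pos_right hcon hB0
      linarith
    have d4 : (P₁ : ℝ) ^ 6 ≤ 3 * q₁ * P₂ := by
      have := mul_le_mul_of_nonneg_right d3 (by positivity : (0 : ℝ) ≤ (P₁ : ℝ) ^ 6)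
      calc (P₁ : ℝ) ^ 6 = 1 * (P₁ : ℝ) ^ 6 := by ring
        _ ≤ 3 * (q₁ * P₂ * x₁) * (P₁ : ℝ) ^ 6 := this
        _ = 3 * q₁ * P₂ * (x₁ * (P₁ : ℝ) ^ 6) := by ring
        _ = 3 * q₁ * P₂ := by rw [hx1, mul_one]
    have d5 : P₁ ^ 6 ≤ 3 * q₁ * P₂ := by exact_mod_cast d4
    have d6 : P₁ ^ 2 * P₁ ^ 4 ≤ P₁ ^ 2 * P₂ := by
      calc P₁ ^ 2 * P₁ ^ 4 = P₁ ^ 6 := by ring
        _ ≤ 3 * q₁ * P₂ := d5
        _ ≤ P₁ * P₁ * P₂ := Nat.mul_le_mul_right _ (Nat.mul_le_mul h3 hq1)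
        _ = P₁ ^ 2 * P₂ := by ring
    exact Nat.le_of_mul_le_mul_left d6 (by positivity)

theorem Rel_eq_of_cross {y : ℕ} {t t' : Tr} (h : t ∈ Rel y) (h' : t' ∈ Rel y)
    (he : t'.2.1 * t.1 = t.2.1 * t'.1) : t = t' := by
  have hn := relN h
  have hn' := relN h'
  have hc := hn.cop
  have hc' := hn'.cop
  have h1 : t.1 ∣ t'.1 := by
    have : t.1 ∣ t.2.1 * t'.1 := ⟨t'.2.1, by rw [← he]; ring⟩
    exact hc.dvd_of_dvd_mul_left this
  have h2 : t'.1 ∣ t.1 := by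
    have : t'.1 ∣ t'.2.1 * t.1 := ⟨t.2.1, by rw [he]; ring⟩
    exact hc'.dvd_of_dvd_mul_left this
  have h3 : t.1 = t'.1 := Nat.dvd_antisymm h1 h2
  have h4 : t.2.1 = t'.2.1 := by
    have h5 : t.1 * t'.2.1 = t.1 * t.2.1 := by
      calc t.1 * t'.2.1 = t'.2.1 * t.1 := mul_comm _ _
        _ = t.2.1 * t'.1 := he
        _ = t.1 * t.2.1 := by rw [← h3]; ring
    exact (Nat.eq_of_mul_eq_mul_left (by have := hn.three; omega) h5).symm
  exact Rel_label h h' h3 h4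

theorem Rel_sparse {y : ℕ} {t t' : Tr} (h : t ∈ Rel y) (h' : t' ∈ Rel y) (hne : t ≠ t')
    (hle : t.1 ≤ t'.1) : 3 * log t.1 ≤ log t'.1 := by
  have hn := relN h
  have hn' := relN h'
  obtain ⟨k₁, -, hk₁⟩ := hn.k
  obtain ⟨k₂, -, hk₂⟩ := hn'.k
  have h3 := hn.three
  have h3' := hn'.three
  have hcross : (t'.2.1 * t.1) * 2 ^ k₁ ≠ (t.2.1 * t'.1) * 2 ^ k₂ := by
    intro he
    obtain ⟨-, he2⟩ := odd_parts (hn'.oddq.mul hn.oddP) (hn.oddq.mul hn'.oddP) he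
    exact hne (Rel_eq_of_cross h h' he2)
  have hm := sparse_core h3 hle hn.oddq.pos hn'.oddq.pos (le_of_pow (by omega) hn.q)
    (le_of_pow (by omega) hn'.q) hk₁ hk₂ hcross
  have hP : (3 : ℝ) ≤ t.1 := by exact_mod_cast h3
  have hm2 : (t.1 : ℝ) ^ 4 ≤ t'.1 := by exact_mod_cast hm
  have hlog : log ((t.1 : ℝ) ^ 4) ≤ log (t'.1 : ℝ) := Real.log_le_log (by positivity) hm2
  rw [Real.log_pow] at hlog
  have hL : 0 ≤ log (t.1 : ℝ) := Real.log_natCast_nonneg _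
  push_cast at hlog
  linarith

theorem Rel_pos_inj {y : ℕ} {t t' : Tr} (h : t ∈ Rel y) (h' : t' ∈ Rel y) (hp : pos t = pos t') :
    t = t' := by
  have hn := relN h
  have hn' := relN h'
  apply Rel_eq_of_cross h h'
  have hq : (t.2.1 : ℚ) ≠ 0 := by exact_mod_cast hn.oddq.pos.ne'
  have hq' : (t'.2.1 : ℚ) ≠ 0 := by exact_mod_cast hn'.oddq.pos.ne'
  unfold pos at hp
  rw [div_eq_div_iff hq hq'] at hp
  have : t.1 * t'.2.1 = t'.1 * t.2.1 := by exact_mod_cast hp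
  linarith [mul_comm t.1 t'.2.1, mul_comm t'.1 t.2.1]

theorem Rel_small {y : ℕ} {t : Tr} (h : t ∈ Rel y) : |t.2.2| < pos t / 2 := by
  have hn := relN h
  have h3 := hn.three
  have hq0 := hn.oddq.pos
  have hmul : 2 * (t.2.1 * ht t.2.2) < t.1 := by
    by_contra hcon
    push Not at hcon
    have hpow : t.1 ^ 128 ≤ 2 ^ 128 * t.1 ^ 10 := by
      calc t.1 ^ 128 ≤ (2 * (t.2.1 * ht t.2.2)) ^ 128 := Nat.pow_le_pow_left hcon _
        _ = 2 ^ 128 * (t.2.1 ^ 128 * ht t.2.2 ^ 128) := by rw [mul_pow, mul_pow]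
        _ ≤ 2 ^ 128 * (t.1 ^ 5 * t.1 ^ 5) :=
          Nat.mul_le_mul_left _ (Nat.mul_le_mul hn.q hn.h)
        _ = 2 ^ 128 * t.1 ^ 10 := by ring
    have h118 : t.1 ^ 118 ≤ 2 ^ 128 := by
      have e1 : t.1 ^ 10 * t.1 ^ 118 ≤ t.1 ^ 10 * 2 ^ 128 := by
        rw [← pow_add]
        calc t.1 ^ (10 + 118) = t.1 ^ 128 := by norm_num
          _ ≤ 2 ^ 128 * t.1 ^ 10 := hpow
          _ = t.1 ^ 10 * 2 ^ 128 := mul_comm _ _
      exact Nat.le_of_mul_le_mul_left e1 (by positivity)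
    have h3p : 3 ^ 118 ≤ t.1 ^ 118 := Nat.pow_le_pow_left h3 _
    have : (3 : ℕ) ^ 118 ≤ 2 ^ 128 := h3p.trans h118
    norm_num at this
  have habs : |t.2.2| ≤ (ht t.2.2 : ℚ) := by
    have a1 : |t.2.2| = (t.2.2.num.natAbs : ℚ) / (t.2.2.den : ℚ) := by
      rw [Rat.abs_def, Rat.divInt_eq_div]
      simp
    have a2 : (1 : ℚ) ≤ t.2.2.den := by exact_mod_cast t.2.2.den_pos
    have a3 : (t.2.2.num.natAbs : ℚ) / (t.2.2.den : ℚ) ≤ (t.2.2.num.natAbs : ℚ) :=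
      div_le_self (Nat.cast_nonneg _) a2
    have a4 : (t.2.2.num.natAbs : ℚ) ≤ (ht t.2.2 : ℚ) := by
      exact_mod_cast le_max_left _ _
    rw [a1]
    exact a3.trans a4
  refine habs.trans_lt ?_
  unfold pos
  have hq : (0 : ℚ) < t.2.1 := by exact_mod_cast hq0
  rw [lt_div_iff₀ (by norm_num), lt_div_iff₀ hq]
  have : (2 : ℚ) * (t.2.1 * ht t.2.2) < t.1 := by exact_mod_cast hmul
  linarith

set_option linter.unusedVariables false in
theorem large {P q k K : ℕ} {y η : ℝ} (hP : 3 ≤ P) (hPo : Odd P) (hqo : Odd q)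
    (hc : Nat.Coprime P q) (hqP : q < P) (hη : η ≤ 1 / 2) (hy : |y - 2 ^ K| ≤ η * 2 ^ K)
    (h : |(q : ℝ) * y - P * 2 ^ k| ≤ 2 ^ k * P * exp (-(6 * log P))) : 1 ≤ 4 * η * P := by
  rw [exp_six (by omega)] at h
  have hPr : (3 : ℝ) ≤ P := by exact_mod_cast hP
  have hqr : (0 : ℝ) < q := by exact_mod_cast hqo.pos
  have hqPr : (q : ℝ) < P := by exact_mod_cast hqP
  have hi := inv_six_le hP
  set x : ℝ := ((P : ℝ) ^ 6)⁻¹ with hx
  have hx0 : 0 < x := by positivity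
  have hxP : P * x ≤ 1 / 243 := by
    have e1 : x * (P : ℝ) ^ 6 = 1 := inv_mul_cancel₀ (by positivity)
    have e2 : (3 : ℝ) ^ 5 ≤ (P : ℝ) ^ 5 := pow_le_pow_left₀ (by norm_num) hPr 5
    have e3 : (P * x) * (3 : ℝ) ^ 5 ≤ (P * x) * (P : ℝ) ^ 5 :=
      mul_le_mul_of_nonneg_left e2 (by positivity)
    have e4 : (P * x) * (P : ℝ) ^ 5 = 1 := by rw [← e1]; ring
    rw [e4] at e3
    linarith
  have hne : q * 2 ^ K ≠ P * 2 ^ k := by
    intro he
    have := (odd_parts hqo hPo he).2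
    omega
  set A : ℝ := (2 : ℝ) ^ K with hA
  set B : ℝ := (2 : ℝ) ^ k with hB
  have hA0 : 0 < A := by positivity
  have hB0 : 0 < B := by positivity
  have hη0 : 0 ≤ η := by
    have := (abs_nonneg _).trans hy
    by_contra hcon
    push Not at hcon
    have := mul_neg_of_neg_of_pos hcon hA0
    linarith
  obtain ⟨y1, y2⟩ := abs_le.mp hy
  obtain ⟨z1, z2⟩ := abs_le.mp h
  have hdiff : |(q : ℝ) * A - P * B| ≤ q * (η * A) + B * P * x := by
    have t1 := mul_le_mul_of_nonneg_left y1 hqr.le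
    have t2 := mul_le_mul_of_nonneg_left y2 hqr.le
    rw [abs_le]
    constructor
    · linarith
    · linarith
  have hqA : (q : ℝ) * A * (1 / 2) ≤ P * B + B * P * x := by
    have t1 := mul_le_mul_of_nonneg_left y1 hqr.le
    have t3 : (q : ℝ) * (η * A) ≤ q * (1 / 2 * A) := by
      apply mul_le_mul_of_nonneg_left _ hqr.le
      exact mul_le_mul_of_nonneg_right hη hA0.le
    linarith
  have hqA2 : (q : ℝ) * A ≤ 3 * (P * B) := by
    have t4 : B * P * x ≤ B * P * (1 / 729) :=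
      mul_le_mul_of_nonneg_left hi (by positivity)
    have : (0 : ℝ) < P * B := by positivity
    linarith
  rcases le_total k K with hk | hk
  · have hd : B ≤ |(q : ℝ) * A - P * B| := by
      have := diff_ge hk (Ne.symm hne)
      rw [abs_sub_comm] at this
      exact this
    have h1 : B ≤ q * (η * A) + B * P * x := hd.trans hdiff
    have h2 : (q : ℝ) * (η * A) ≤ η * (3 * (P * B)) := by
      have := mul_le_mul_of_nonneg_left hqA2 hη0
      linarith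
    have h3 : B * P * x ≤ B * (1 / 243) := by
      have := mul_le_mul_of_nonneg_left hxP hB0.le
      linarith
    have h4 : B * (242 / 243) ≤ B * (3 * η * P) := by linarith
    have h5 : (242 / 243 : ℝ) ≤ 3 * η * P := le_of_mul_le_mul_left h4 hB0
    linarith
  · -- `K < k`
    rcases eq_or_lt_of_le hk with hkK | hkK
    · -- equal exponents
      subst hkK
      have hd : B ≤ |(q : ℝ) * A - P * B| := by
        have := diff_ge le_rfl (Ne.symm hne)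
        rw [abs_sub_comm] at this
        exact this
      have h1 : B ≤ q * (η * A) + B * P * x := hd.trans hdiff
      have h2 : (q : ℝ) * (η * A) ≤ η * (3 * (P * B)) := by
        have := mul_le_mul_of_nonneg_left hqA2 hη0
        linarith
      have h3 : B * P * x ≤ B * (1 / 243) := by
        have := mul_le_mul_of_nonneg_left hxP hB0.le
        linarith
      have h4 : B * (242 / 243) ≤ B * (3 * η * P) := by linarith
      have h5 : (242 / 243 : ℝ) ≤ 3 * η * P := le_of_mul_le_mul_left h4 hB0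
      linarith
    · have hAB : 2 * A ≤ B := by
        rw [hA, hB]
        have : (2 : ℝ) ^ (K + 1) ≤ 2 ^ k := pow_le_pow_right₀ (by norm_num) hkK
        calc 2 * (2 : ℝ) ^ K = 2 ^ (K + 1) := by ring
          _ ≤ 2 ^ k := this
      have hd : P * B * (1 / 2) ≤ |(q : ℝ) * A - P * B| := by
        have t1 : (q : ℝ) * A ≤ P * A := mul_le_mul_of_nonneg_right hqPr.le hA0.le
        have t2 : (P : ℝ) * (2 * A) ≤ P * B := mul_le_mul_of_nonneg_left hAB (by linarith)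
        rw [abs_sub_comm]
        refine le_trans ?_ (le_abs_self _)
        linarith
      have h1 := hd.trans hdiff
      have h2 : (q : ℝ) * (η * A) ≤ η * (3 * (P * B)) := by
        have := mul_le_mul_of_nonneg_left hqA2 hη0
        linarith
      have h3 : B * P * x ≤ B * P * (1 / 729) :=
        mul_le_mul_of_nonneg_left hi (by positivity)
      have hPB : (0 : ℝ) < P * B := by positivity
      have h4 : (P * B) * (1 / 2 - 1 / 729) ≤ (P * B) * (3 * η) := by linarith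
      have h5 : (1 / 2 - 1 / 729 : ℝ) ≤ 3 * η := le_of_mul_le_mul_left h4 hPB
      nlinarith

end Pool.Agent.T6.H76.DP
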